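import Mathlib

/-!
# A kernel checker for upper bounds of products of powers of polynomials on an interval

`∏ F_k(t)^(E_k) ≤ 2^(-B) ∏ ... D(t)^F` for all real `t` in a union of small boxes; every box is checked by one
comparison of integers, using `x ≤ exp (x - 1)` for `x = F_k(t) R_k / 2^(s_k)`.
-/

set_option autoImplicit false

namespace Pool.Agent.Lib.PiMuB

/-- value of a polynomial given by the list of its coefficients -/
def ev : List ℤ → ℝ → ℝ
  | [], _ => 0
  | c :: p, u => c + u * ev p u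

/-- sum of coefficient lists -/
def addL : List ℤ → List ℤ → List ℤ
  | [], q => q
  | p, [] => p
  | a :: p, b :: q => (a + b) :: addL p q

/-- multiple of a coefficient list -/
def mulL (a : ℤ) : List ℤ → List ℤ
  | [] => []
  | b :: q => (a * b) :: mulL a q

/-- product of coefficient lists -/
def convL : List ℤ → List ℤ → List ℤ
  | [], _ => []
  | a :: p, q => addL (mulL a q) (0 :: convL p q)

/-- coefficients of `p (m + δ)` in `δ` -/
def shiftL (m : ℤ) : List ℤ → List ℤ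
  | [] => []
  | c :: p => addL [c] (addL (mulL m (shiftL m p)) (0 :: shiftL m p))

/-- sum of the absolute values of the terms for `|δ| ≤ h` -/
def absL (h : ℤ) : List ℤ → ℤ
  | [] => 0
  | c :: p => |c| + h * absL h p

/-- upper bound for the values at `|δ| ≤ h` -/
def bdL (h : ℤ) : List ℤ → ℤ
  | [] => 0
  | c :: p => c + h * absL h p

theorem ev_addL (p q : List ℤ) (u : ℝ) : ev (addL p q) u = ev p u + ev q u := by
  induction p generalizing q with
  | nil => simp [addL, ev]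
  | cons a p ih =>
    cases q with
    | nil => simp [addL, ev]
    | cons b q => simp only [addL, ev, ih]; push_cast; ring

theorem ev_mulL (a : ℤ) (q : List ℤ) (u : ℝ) : ev (mulL a q) u = a * ev q u := by
  induction q with
  | nil => simp [mulL, ev]
  | cons b q ih => simp only [mulL, ev, ih]; push_cast; ring

theorem ev_convL (p q : List ℤ) (u : ℝ) : ev (convL p q) u = ev p u * ev q u := by
  induction p with
  | nil => simp [convL, ev]
  | cons a p ih =>
    simp only [convL, ev_addL, ev_mulL, ev, ih]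
    push_cast
    ring

theorem ev_shiftL (m : ℤ) (p : List ℤ) (d : ℝ) : ev (shiftL m p) d = ev p (m + d) := by
  induction p with
  | nil => simp [shiftL, ev]
  | cons c p ih =>
    simp only [shiftL, ev_addL, ev_mulL, ev, ih]
    push_cast
    ring

theorem abs_ev_le (h : ℤ) (p : List ℤ) (d : ℝ) (hd : |d| ≤ h) : |ev p d| ≤ (absL h p : ℤ) := by
  induction p with
  | nil => simp [ev, absL]
  | cons c p ih =>
    simp only [ev, absL]
    push_cast
    refine (abs_add_le _ _).trans ?_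
    rw [abs_mul]
    have h0 : (0 : ℝ) ≤ |ev p d| := abs_nonneg _
    have h1 : |d| * |ev p d| ≤ (h : ℝ) * (absL h p : ℤ) :=
      mul_le_mul hd ih h0 ((abs_nonneg d).trans hd)
    linarith

theorem ev_le (h : ℤ) (p : List ℤ) (d : ℝ) (hd : |d| ≤ h) : ev p d ≤ (bdL h p : ℤ) := by
  cases p with
  | nil => simp [ev, bdL]
  | cons c p =>
    simp only [ev, bdL]
    push_cast
    have h1 : |ev p d| ≤ (absL h p : ℤ) := abs_ev_le h p d hd
    have h2 : |d * ev p d| ≤ (h : ℝ) * (absL h p : ℤ) := by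
      rw [abs_mul]
      exact mul_le_mul hd h1 (abs_nonneg _) ((abs_nonneg d).trans hd)
    have h3 := (abs_le.1 h2).2
    linarith

/-- the number of fractional bits used for a reference value -/
def sb (v : ℤ) : ℕ := Nat.log2 v.toNat + 24

/-- approximate inverse of `v` times `2 ^ sb v` -/
def rv (v : ℤ) : ℕ := 2 ^ sb v / v.toNat

/-- value of the constant coefficient -/
def c0 : List ℤ → ℤ
  | [] => 0
  | c :: _ => c

/-- reference value of a polynomial on the box `|δ| ≤ h` -/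
def rf (h : ℤ) (p : List ℤ) : ℤ := if 2 * bdL h p ≤ 3 * c0 p then c0 p else bdL h p

/-- `2^S ∑ E_k (x_k - 1)` as a polynomial in `δ`, `x_k = p_k(δ) rv(v_k) / 2^(sb v_k)` -/
def comb (S : ℕ) (h : ℤ) : List (List ℤ) → List ℕ → List ℤ
  | p :: ps, e :: es =>
    addL (addL (mulL ((e : ℤ) * rv (rf h p) * 2 ^ (S - sb (rf h p))) p) [-((e : ℤ) * 2 ^ S)])
      (comb S h ps es)
  | _, _ => []

/-- `∏ R_k ^ E_k` -/
def prodR (h : ℤ) : List (List ℤ) → List ℕ → ℕ
  | p :: ps, e :: es => rv (rf h p) ^ e * prodR h ps es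
  | _, _ => 1

/-- `∑ s_k E_k` -/
def sumS (h : ℤ) : List (List ℤ) → List ℕ → ℕ
  | p :: ps, e :: es => sb (rf h p) * e + sumS h ps es
  | _, _ => 0

/-- `∏ C_k ^ E_k` -/
def prodC : List ℕ → List ℕ → ℕ
  | c :: cs, e :: es => c ^ e * prodC cs es
  | _, _ => 1

/-- all `s_k ≤ S` -/
def okS (S : ℕ) (h : ℤ) : List (List ℤ) → Bool
  | [] => true
  | p :: ps => decide (sb (rf h p) ≤ S) && okS S h ps

/-- `∏ F_k(t)^(E_k)` -/
noncomputable def prodF (t : ℝ) : List (List ℤ) → List ℕ → ℝ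
  | p :: ps, e :: es => ev p t ^ e * prodF t ps es
  | _, _ => 1

theorem prodF_nonneg (t : ℝ) : ∀ (ps : List (List ℤ)) (es : List ℕ), (∀ p ∈ ps, 0 ≤ ev p t) →
    0 ≤ prodF t ps es
  | [], es, _ => by cases es <;> simp [prodF]
  | p :: ps, [], _ => by simp [prodF]
  | p :: ps, e :: es, h => by
    simp only [prodF]
    exact mul_nonneg (pow_nonneg (h p (by simp)) e)
      (prodF_nonneg t ps es fun q hq => h q (by simp [hq]))

theorem prod_le (S : ℕ) (h : ℤ) (d : ℝ) : ∀ (ps : List (List ℤ)) (es : List ℕ),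
    (∀ p ∈ ps, 0 ≤ ev p d) → okS S h ps = true →
    prodF d ps es * prodR h ps es ≤ 2 ^ sumS h ps es * Real.exp (ev (comb S h ps es) d / 2 ^ S)
  | [], es, _, _ => by cases es <;> simp [prodF, prodR, sumS, comb, ev]
  | p :: ps, [], _, _ => by simp [prodF, prodR, sumS, comb, ev]
  | p :: ps, e :: es, hp, hS => by
    simp only [okS, Bool.and_eq_true, decide_eq_true_eq] at hS
    have ih := prod_le S h d ps es (fun q hq => hp q (by simp [hq])) hS.2
    have h0 : 0 ≤ ev p d := hp p (by simp)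
    simp only [prodF, prodR, sumS, comb, ev_addL, ev_mulL, ev]
    set r : ℕ := rv (rf h p) with hr
    set s : ℕ := sb (rf h p) with hs
    set L := ev (comb S h ps es) d with hL
    have h2 : (2 : ℝ) ^ S = 2 ^ (S - s) * 2 ^ s := by
      rw [← pow_add]
      congr 1
      omega
    have hx0 : 0 ≤ ev p d * r / 2 ^ s := by positivity
    have hx1 : ev p d * r / 2 ^ s ≤ Real.exp (ev p d * r / 2 ^ s - 1) := by
      have := Real.add_one_le_exp (ev p d * r / 2 ^ s - 1)
      linarith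
    have hx2 : (ev p d * r / 2 ^ s) ^ e ≤ Real.exp (e * (ev p d * r / 2 ^ s - 1)) := by
      rw [Real.exp_nat_mul]
      exact pow_le_pow_left₀ hx0 hx1 e
    have e1 : ((((e : ℤ) * (r : ℤ) * 2 ^ (S - s) : ℤ) : ℝ) * ev p d +
        (((-((e : ℤ) * 2 ^ S) : ℤ) : ℝ) + d * 0) + L) / 2 ^ S =
        e * (ev p d * r / 2 ^ s - 1) + L / 2 ^ S := by
      push_cast
      rw [h2]
      field_simp
      ring
    rw [e1, Real.exp_add]
    have e2 : ev p d ^ e * prodF d ps es * ((r ^ e * prodR h ps es : ℕ) : ℝ) =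
        (2 ^ (s * e) * (ev p d * r / 2 ^ s) ^ e) * (prodF d ps es * prodR h ps es) := by
      push_cast
      rw [div_pow, mul_pow, ← pow_mul]
      field_simp
    rw [e2, pow_add]
    have h5 : 0 ≤ prodF d ps es * prodR h ps es :=
      mul_nonneg (prodF_nonneg d ps es fun q hq => hp q (by simp [hq])) (by positivity)
    calc 2 ^ (s * e) * (ev p d * r / 2 ^ s) ^ e * (prodF d ps es * prodR h ps es)
        ≤ 2 ^ (s * e) * Real.exp (e * (ev p d * r / 2 ^ s - 1)) *
          (2 ^ sumS h ps es * Real.exp (L / 2 ^ S)) := by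
          refine mul_le_mul ?_ ih h5 (by positivity)
          exact mul_le_mul_of_nonneg_left hx2 (by positivity)
      _ = _ := by ring

/-- `2^S F (-x + 2 x^2)`, `x = D(δ) r / 2^s - 1` -/
def denL (S F : ℕ) (D : List ℤ) : List ℤ :=
  let X := addL (mulL (rv (c0 D)) D) [-(2 ^ sb (c0 D))]
  addL (mulL (-((F : ℤ) * 2 ^ (S - sb (c0 D)))) X)
    (mulL (2 * (F : ℤ) * 2 ^ (S - 2 * sb (c0 D))) (convL X X))

/-- the condition `x ≥ -1/2` on the box -/
def okD (h : ℤ) (D : List ℤ) : Bool :=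
  decide (2 * bdL h (mulL (-(rv (c0 D) : ℤ)) D) ≤ -(2 ^ sb (c0 D)))

theorem den_le (S F : ℕ) (d : ℝ) (h : ℤ) (D : List ℤ) (hd : |d| ≤ h) (hD : okD h D = true)
    (hS : 2 * sb (c0 D) ≤ S) :
    2 ^ (sb (c0 D) * F) ≤ (ev D d * rv (c0 D)) ^ F * Real.exp (ev (denL S F D) d / 2 ^ S) := by
  simp only [okD, decide_eq_true_eq] at hD
  set r : ℕ := rv (c0 D) with hr
  set s : ℕ := sb (c0 D) with hs
  have h1 : ev (mulL (-(r : ℤ)) D) d ≤ (bdL h (mulL (-(r : ℤ)) D) : ℤ) := ev_le h _ d hd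
  rw [ev_mulL] at h1
  have h2 : (2 : ℝ) * (bdL h (mulL (-(r : ℤ)) D) : ℤ) ≤ -(2 ^ s) := by exact_mod_cast hD
  push_cast at h1
  have hs0 : (0 : ℝ) < 2 ^ s := by positivity
  set y : ℝ := ev D d * r / 2 ^ s with hy
  have hy1 : 1 / 2 ≤ y := by
    rw [hy, le_div_iff₀ hs0]
    nlinarith
  have hy2 : ev D d * r = 2 ^ s * y := by rw [hy]; field_simp
  have e1 : ev (denL S F D) d / 2 ^ S = F * (-(y - 1) + 2 * (y - 1) ^ 2) := by
    simp only [denL, ev_addL, ev_mulL, ev_convL, ev]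
    rw [← hr, ← hs]
    push_cast
    have h3 : (2 : ℝ) ^ S = 2 ^ (S - s) * 2 ^ s := by
      rw [← pow_add]
      congr 1
      omega
    have h4 : (2 : ℝ) ^ S = 2 ^ (S - 2 * s) * (2 ^ s * 2 ^ s) := by
      rw [← pow_add, ← pow_add]
      congr 1
      omega
    have h5 : (r : ℝ) * ev D d = 2 ^ s * y := by rw [← hy2]; ring
    rw [h5]
    have e2 : (2 : ℝ) ^ s * y + (-2 ^ s + d * 0) = 2 ^ s * (y - 1) := by ring
    rw [e2]
    have e3 : -((F : ℝ) * 2 ^ (S - s)) * (2 ^ s * (y - 1)) = 2 ^ S * (F * (-(y - 1))) := by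
      rw [h3]; ring
    have e4 : 2 * (F : ℝ) * 2 ^ (S - 2 * s) * (2 ^ s * (y - 1) * (2 ^ s * (y - 1))) =
        2 ^ S * (F * (2 * (y - 1) ^ 2)) := by
      rw [h4]; ring
    rw [e3, e4, ← mul_add, mul_div_assoc, mul_comm]
    field_simp
  rw [e1, Real.exp_nat_mul, ← mul_pow, pow_mul, hy2]
  refine pow_le_pow_left₀ (by positivity) ?_ F
  have h6 : Real.exp (-(-(y - 1) + 2 * (y - 1) ^ 2)) ≤ y := by
    have hy0 : 0 < y := by linarith
    have h7 : -(-(y - 1) + 2 * (y - 1) ^ 2) ≤ 1 - 1 / y := by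
      have : 1 - 1 / y + (-(y - 1) + 2 * (y - 1) ^ 2) = (y - 1) ^ 2 * (2 - 1 / y) := by
        field_simp
        ring
      have h8 : 1 / y ≤ 2 := by
        rw [div_le_iff₀ hy0]
        linarith
      nlinarith [mul_nonneg (sq_nonneg (y - 1)) (by linarith : 0 ≤ 2 - 1 / y)]
    refine (Real.exp_le_exp.2 h7).trans ?_
    have h9 : Real.exp (-(1 - 1 / y)) ≥ 1 / y := by
      have := Real.add_one_le_exp (-(1 - 1 / y))
      linarith
    rw [show (1 : ℝ) - 1 / y = -(-(1 - 1 / y)) by ring, Real.exp_neg]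
    calc (Real.exp (-(1 - 1 / y)))⁻¹ ≤ (1 / y)⁻¹ := inv_anti₀ (by positivity) h9
      _ = y := by simp
  have h10 := mul_le_mul_of_nonneg_right h6 (Real.exp_pos (-(y - 1) + 2 * (y - 1) ^ 2)).le
  rw [← Real.exp_add, neg_add_cancel, Real.exp_zero] at h10
  nlinarith

private theorem core {PF PR PC D r cD Cx x1 x2 : ℝ} {s F N B1 B2 SS : ℕ}
    (hPR : 0 ≤ PR) (hPC : 0 ≤ PC) (hD : 0 ≤ D) (hr : 0 ≤ r) (hcD : 0 ≤ cD) (hCx : 0 < Cx)
    (hA : PF * PR ≤ 2 ^ SS * Real.exp x1) (hB : 2 ^ (s * F) ≤ (D * r) ^ F * Real.exp x2)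
    (hexp : (Cx / 2 ^ 30) ^ N * Real.exp (x1 + x2) ≤ 1)
    (h8 : 2 ^ (SS + 30 * N + B1) * (r ^ F * cD ^ F) ≤ PR * PC * 2 ^ (s * F + B2) * Cx ^ N) :
    PF * 2 ^ B1 * cD ^ F ≤ PC * 2 ^ B2 * D ^ F := by
  have h9 : PF * PR * (2 ^ (s * F) * Cx ^ N) ≤ 2 ^ SS * 2 ^ (30 * N) * (D * r) ^ F := by
    have hY : (0 : ℝ) ≤ (D * r) ^ F := by positivity
    have e4 : Cx ^ N = 2 ^ (30 * N) * (Cx / 2 ^ 30) ^ N := by
      rw [div_pow, ← pow_mul]
      field_simp
    have e5 : Real.exp x1 * Real.exp x2 = Real.exp (x1 + x2) := (Real.exp_add _ _).symm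
    have hCN : (0 : ℝ) ≤ Cx ^ N := by positivity
    have h10 : 2 ^ (s * F) * Cx ^ N ≤ (D * r) ^ F * Real.exp x2 * Cx ^ N :=
      mul_le_mul_of_nonneg_right hB hCN
    have h11 : PF * PR * (2 ^ (s * F) * Cx ^ N) ≤
        2 ^ SS * Real.exp x1 * ((D * r) ^ F * Real.exp x2 * Cx ^ N) :=
      mul_le_mul hA h10 (by positivity) (by positivity)
    have e6 : 2 ^ SS * Real.exp x1 * ((D * r) ^ F * Real.exp x2 * Cx ^ N) =
        2 ^ SS * 2 ^ (30 * N) * (D * r) ^ F * ((Cx / 2 ^ 30) ^ N * Real.exp (x1 + x2)) := by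
      rw [← e5, e4]
      ring
    rw [e6] at h11
    have h12 : 2 ^ SS * 2 ^ (30 * N) * (D * r) ^ F * ((Cx / 2 ^ 30) ^ N * Real.exp (x1 + x2)) ≤
        2 ^ SS * 2 ^ (30 * N) * (D * r) ^ F * 1 :=
      mul_le_mul_of_nonneg_left hexp (by positivity)
    linarith
  by_cases h0 : cD ^ F * r ^ F = 0
  · rcases mul_eq_zero.1 h0 with h10 | h10
    · rw [h10, mul_zero]
      positivity
    · rw [mul_pow, h10, mul_zero, zero_mul] at hB
      exact absurd hB (not_le.2 (by positivity))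
  · have hcr : (0 : ℝ) < cD ^ F * r ^ F := lt_of_le_of_ne (by positivity) (Ne.symm h0)
    have hRHS : (0 : ℝ) < PR * PC * 2 ^ (s * F + B2) * Cx ^ N :=
      lt_of_lt_of_le (by rw [mul_comm (r ^ F)]; positivity) h8
    have hR : 0 < PR := by
      rcases hPR.lt_or_eq with h | h
      · exact h
      · rw [← h] at hRHS
        simp at hRHS
    have hK : (0 : ℝ) < PR * (2 ^ (s * F) * Cx ^ N) := by positivity
    refine le_of_mul_le_mul_right ?_ hK
    have h13 : (PF * PR * (2 ^ (s * F) * Cx ^ N)) * (2 ^ B1 * cD ^ F) ≤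
        (2 ^ SS * 2 ^ (30 * N) * (D * r) ^ F) * (2 ^ B1 * cD ^ F) :=
      mul_le_mul_of_nonneg_right h9 (by positivity)
    have h14 : D ^ F * (2 ^ (SS + 30 * N + B1) * (r ^ F * cD ^ F)) ≤
        D ^ F * (PR * PC * 2 ^ (s * F + B2) * Cx ^ N) :=
      mul_le_mul_of_nonneg_left h8 (by positivity)
    have e7 : (2 ^ SS * 2 ^ (30 * N) * (D * r) ^ F) * (2 ^ B1 * cD ^ F) =
        D ^ F * (2 ^ (SS + 30 * N + B1) * (r ^ F * cD ^ F)) := by
      rw [mul_pow, pow_add, pow_add]; ring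
    have e8 : D ^ F * (PR * PC * 2 ^ (s * F + B2) * Cx ^ N) =
        PC * 2 ^ B2 * D ^ F * (PR * (2 ^ (s * F) * Cx ^ N)) := by
      rw [pow_add]; ring
    have e9 : PF * 2 ^ B1 * cD ^ F * (PR * (2 ^ (s * F) * Cx ^ N)) =
        (PF * PR * (2 ^ (s * F) * Cx ^ N)) * (2 ^ B1 * cD ^ F) := by ring
    rw [e9]
    linarith

private theorem core_exp {C Q L b : ℝ} {N : ℕ} (hN : 0 < N) (hQ : 0 < Q) (hC : 0 < C) (hLb : L ≤ b)
    (h : C * (N * Q) ≤ 2 ^ 30 * (N * Q - b)) : (C / 2 ^ 30) ^ N * Real.exp (L / Q) ≤ 1 := by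
  have hN' : (0 : ℝ) < N := by exact_mod_cast hN
  have hCx : C / 2 ^ 30 ≤ 1 - L / Q / N := by
    have e1 : 1 - L / Q / N = (N * Q - L) / (N * Q) := by field_simp
    rw [e1, div_le_div_iff₀ (by positivity) (by positivity)]
    have h31 : (2 : ℝ) ^ 30 * L ≤ 2 ^ 30 * b := mul_le_mul_of_nonneg_left hLb (by positivity)
    linarith
  have h6 : C / 2 ^ 30 ≤ Real.exp (-(L / Q / N)) := by
    have := Real.add_one_le_exp (-(L / Q / N))
    linarith
  have h7 : (C / 2 ^ 30) ^ N ≤ Real.exp (-(L / Q)) := by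
    have e2 : -(L / Q) = (N : ℝ) * (-(L / Q / N)) := by field_simp
    rw [e2, Real.exp_nat_mul]
    exact pow_le_pow_left₀ (by positivity) h6 N
  calc _ ≤ Real.exp (-(L / Q)) * Real.exp (L / Q) :=
        mul_le_mul_of_nonneg_right h7 (Real.exp_pos _).le
    _ = 1 := by rw [← Real.exp_add, neg_add_cancel, Real.exp_zero]

/-! ### faster evaluation with natural numbers -/

/-- value of a polynomial with natural coefficients -/
def evN : List ℕ → ℝ → ℝ
  | [], _ => 0
  | c :: p, u => c + u * evN p u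

/-- `1 + u + ... + u^(n-1)` -/
def geo : ℕ → ℝ → ℝ
  | 0, _ => 0
  | n + 1, u => 1 + u * geo n u

/-- the coefficients `c a + O` as natural numbers -/
def offL (O c : ℤ) : List ℤ → List ℕ
  | [] => []
  | a :: p => (c * a + O).toNat :: offL O c p

/-- all `c a + O ≥ 0` -/
def okOff (O c : ℤ) : List ℤ → Bool
  | [] => true
  | a :: p => decide (0 ≤ c * a + O) && okOff O c p

theorem ev_offL (O c : ℤ) (u : ℝ) : ∀ p : List ℤ, okOff O c p = true →
    evN (offL O c p) u = c * ev p u + O * geo p.length u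
  | [], _ => by simp [offL, evN, ev, geo]
  | a :: p, h => by
    simp only [okOff, Bool.and_eq_true, decide_eq_true_eq] at h
    have ih := ev_offL O c u p h.2
    have h1 : (((c * a + O).toNat : ℕ) : ℝ) = c * a + O := by
      have : (((c * a + O).toNat : ℕ) : ℤ) = c * a + O := Int.toNat_of_nonneg h.1
      exact_mod_cast this
    simp only [offL, evN, ev, geo, List.length_cons, ih, h1]
    ring

/-- `e g + q` -/
noncomputable def maN (e : ℕ) (g : List ℕ) : List ℕ → List ℕ :=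
  List.rec (motive := fun _ => List ℕ → List ℕ) (fun q => q)
    (fun a _ ih q => List.rec (motive := fun _ => List ℕ) (Nat.mul e a :: ih [])
      (fun b q _ => Nat.add (Nat.mul e a) b :: ih q) q) g

theorem maN_nil (e : ℕ) (q : List ℕ) : maN e [] q = q := rfl
theorem maN_cons_nil (e a : ℕ) (g : List ℕ) : maN e (a :: g) [] = (e * a) :: maN e g [] := rfl
theorem maN_cons_cons (e a b : ℕ) (g q : List ℕ) :
    maN e (a :: g) (b :: q) = (e * a + b) :: maN e g q := rfl

theorem ev_maN (e : ℕ) (u : ℝ) : ∀ g q : List ℕ, evN (maN e g q) u = e * evN g u + evN q u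
  | [], q => by simp [maN_nil, evN]
  | a :: g, [] => by
    simp only [maN_cons_nil, evN, ev_maN e u g []]
    push_cast
    ring
  | a :: g, b :: q => by
    simp only [maN_cons_cons, evN, ev_maN e u g q]
    push_cast
    ring

/-- `∑ e_k g_k` -/
noncomputable def sumN (gs : List (List ℕ)) : List ℕ → List ℕ :=
  List.rec (motive := fun _ => List ℕ → List ℕ) (fun _ => [])
    (fun g _ ih es => List.rec (motive := fun _ => List ℕ) []
      (fun e es _ => maN e g (ih es)) es) gs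

/-- `∑ e_k` -/
noncomputable def sumE (gs : List (List ℕ)) : List ℕ → ℕ :=
  List.rec (motive := fun _ => List ℕ → ℕ) (fun _ => 0)
    (fun _ _ ih es => List.rec (motive := fun _ => ℕ) 0 (fun e es _ => Nat.add e (ih es)) es) gs

theorem sumN_nil (es : List ℕ) : sumN [] es = [] := rfl
theorem sumN_cons_nil (g : List ℕ) (gs : List (List ℕ)) : sumN (g :: gs) [] = [] := rfl
theorem sumN_cons_cons (g : List ℕ) (gs : List (List ℕ)) (e : ℕ) (es : List ℕ) :
    sumN (g :: gs) (e :: es) = maN e g (sumN gs es) := rfl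
theorem sumE_nil (es : List ℕ) : sumE [] es = 0 := rfl
theorem sumE_cons_nil (g : List ℕ) (gs : List (List ℕ)) : sumE (g :: gs) [] = 0 := rfl
theorem sumE_cons_cons (g : List ℕ) (gs : List (List ℕ)) (e : ℕ) (es : List ℕ) :
    sumE (g :: gs) (e :: es) = e + sumE gs es := rfl

/-- the factor of the polynomial `p` -/
def fac (S : ℕ) (h : ℤ) (p : List ℤ) : ℤ := (rv (rf h p) : ℤ) * 2 ^ (S - sb (rf h p))

/-- the table of one box -/
def tab (S : ℕ) (O h : ℤ) : List (List ℤ) → List (List ℕ)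
  | [] => []
  | p :: ps => offL O (fac S h p) p :: tab S O h ps

/-- the checks for the table -/
def okTab (S n : ℕ) (O h : ℤ) : List (List ℤ) → Bool
  | [] => true
  | p :: ps => okOff O (fac S h p) p && decide (p.length = n) && okTab S n O h ps

theorem ev_tab (S n : ℕ) (O h : ℤ) (u : ℝ) : ∀ (ps : List (List ℤ)) (es : List ℕ),
    okTab S n O h ps = true →
    evN (sumN (tab S O h ps) es) u = ev (comb S h ps es) u +
      (sumE (tab S O h ps) es : ℝ) * (2 ^ S + O * geo n u)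
  | [], es, _ => by simp [tab, sumN_nil, sumE_nil, comb, evN, ev]
  | p :: ps, [], _ => by simp [tab, sumN_cons_nil, sumE_cons_nil, comb, evN, ev]
  | p :: ps, e :: es, hok => by
    simp only [okTab, Bool.and_eq_true, decide_eq_true_eq] at hok
    have ih := ev_tab S n O h u ps es hok.2
    have h1 := ev_offL O (fac S h p) u p hok.1.1
    rw [hok.1.2] at h1
    simp only [tab, sumN_cons_cons, sumE_cons_cons, ev_maN, h1, ih, comb, ev_addL, ev_mulL, ev]
    have h2 : ((fac S h p : ℤ) : ℝ) = (rv (rf h p) : ℝ) * 2 ^ (S - sb (rf h p)) := by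
      simp only [fac]
      push_cast
      ring
    rw [h2]
    push_cast
    ring

/-- subtract `c` from all coefficients -/
def backL (c : ℤ) : List ℕ → List ℤ
  | [] => []
  | a :: p => ((a : ℤ) - c) :: backL c p

theorem ev_backL (c : ℤ) (u : ℝ) : ∀ p : List ℕ,
    ev (backL c p) u = evN p u - c * geo p.length u
  | [] => by simp [backL, ev, evN, geo]
  | a :: p => by
    simp only [backL, ev, evN, geo, List.length_cons, ev_backL c u p]
    push_cast
    ring

/-- the polynomial of one node in one box -/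
noncomputable def nodeL (S : ℕ) (O : ℤ) (gs : List (List ℕ)) (dl : List ℤ) (es : List ℕ) : List ℤ :=
  addL (backL (O * sumE gs es) (sumN gs es)) (addL [-((sumE gs es : ℤ) * 2 ^ S)] dl)

theorem ev_nodeL (S n : ℕ) (O h : ℤ) (u : ℝ) (ps : List (List ℤ)) (dl : List ℤ) (es : List ℕ)
    (hok : okTab S n O h ps = true) (hn : (sumN (tab S O h ps) es).length = n) :
    ev (nodeL S O (tab S O h ps) dl es) u = ev (comb S h ps es) u + ev dl u := by
  simp only [nodeL, ev_addL, ev_backL, ev, ev_tab S n O h u ps es hok, hn]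
  push_cast
  ring

/-- `∏ r_k ^ e_k` -/
def prodP : List ℕ → List ℕ → ℕ
  | r :: rs, e :: es => r ^ e * prodP rs es
  | _, _ => 1

/-- `∑ s_k e_k` -/
def sumP : List ℕ → List ℕ → ℕ
  | r :: rs, e :: es => r * e + sumP rs es
  | _, _ => 0

theorem prodP_map (h : ℤ) : ∀ (ps : List (List ℤ)) (es : List ℕ),
    prodP (ps.map fun p => rv (rf h p)) es = prodR h ps es
  | [], es => by cases es <;> rfl
  | p :: ps, [] => rfl
  | p :: ps, e :: es => by simp only [List.map, prodP, prodR, prodP_map h ps es]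

theorem sumP_map (h : ℤ) : ∀ (ps : List (List ℤ)) (es : List ℕ),
    sumP (ps.map fun p => sb (rf h p)) es = sumS h ps es
  | [], es => by cases es <;> rfl
  | p :: ps, [] => rfl
  | p :: ps, e :: es => by simp only [List.map, sumP, sumS, sumP_map h ps es]

/-- the rational approximation `C / 2^30` from below of `1 - b / N` -/
def cB (S N : ℕ) (b : ℤ) : ℤ := (2 ^ 30 * ((N : ℤ) * 2 ^ S - b)) / ((N : ℤ) * 2 ^ S)

/-- the check of one node in one box -/
noncomputable def chkN (S N n : ℕ) (O h : ℤ) (cs : List ℕ) (rs ss : List ℕ) (gs : List (List ℕ))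
    (dl : List ℤ) (F sD : ℕ) (rF : ℕ) (es : List ℕ) (B1 B2 : ℕ) : Bool :=
  Nat.beq (sumN gs es).length n && decide (0 < cB S N (bdL h (nodeL S O gs dl es))) &&
    Nat.ble (2 ^ (sumP ss es + 30 * N + B1) * rF)
      (prodP rs es * prodC cs es * 2 ^ (sD * F + B2) *
        (cB S N (bdL h (nodeL S O gs dl es))).toNat ^ N)

theorem chkN_sound {S N n : ℕ} {O h : ℤ} {cs : List ℕ} {cD : ℕ} {ps : List (List ℤ)} {D : List ℤ}
    {es : List ℕ} {F B1 B2 : ℕ} (hN : 0 < N) (h1 : okS S h ps = true) (h2 : okD h D = true)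
    (h3 : 2 * sb (c0 D) ≤ S) (hok : okTab S n O h ps = true)
    (hc : chkN S N n O h cs (ps.map fun p => rv (rf h p)) (ps.map fun p => sb (rf h p))
      (tab S O h ps) (denL S F D) F (sb (c0 D)) (rv (c0 D) ^ F * cD ^ F) es B1 B2 = true) {d : ℝ}
    (hd : |d| ≤ h) (hps : ∀ p ∈ ps, 0 ≤ ev p d) (hD0 : 0 ≤ ev D d) :
    prodF d ps es * 2 ^ B1 * cD ^ F ≤ prodC cs es * 2 ^ B2 * ev D d ^ F := by
  simp only [chkN, Bool.and_eq_true, decide_eq_true_eq, prodP_map, sumP_map] at hc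
  obtain ⟨⟨hn, h4⟩, h5⟩ := hc
  have hn' := Nat.eq_of_beq_eq_true hn
  have h5' := Nat.le_of_ble_eq_true h5
  clear h5
  have hA := prod_le S h d ps es hps h1
  have hB := den_le S F d h D hd h2 h3
  have hM : (0 : ℤ) < (N : ℤ) * 2 ^ S := by positivity
  obtain ⟨b, hb⟩ : ∃ b, b = bdL h (nodeL S O (tab S O h ps) (denL S F D) es) := ⟨_, rfl⟩
  rw [← hb] at h4 h5'
  obtain ⟨C, hC⟩ : ∃ C, C = cB S N b := ⟨_, rfl⟩
  have hCle : C * ((N : ℤ) * 2 ^ S) ≤ 2 ^ 30 * ((N : ℤ) * 2 ^ S - b) := by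
    rw [hC, cB]
    exact Int.ediv_mul_le _ hM.ne'
  have hCle' : (C : ℝ) * ((N : ℝ) * 2 ^ S) ≤ 2 ^ 30 * ((N : ℝ) * 2 ^ S - (b : ℤ)) := by
    exact_mod_cast hCle
  have hbd : ev (comb S h ps es) d + ev (denL S F D) d ≤ (b : ℤ) := by
    have := ev_le h (nodeL S O (tab S O h ps) (denL S F D) es) d hd
    rw [ev_nodeL S n O h d ps _ es hok hn', ← hb] at this
    exact this
  rw [← hC] at h4 h5'
  have hC0 : (0 : ℝ) < C := by exact_mod_cast h4
  have hexp := core_exp (L := ev (comb S h ps es) d + ev (denL S F D) d) hN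
    (by positivity : (0 : ℝ) < 2 ^ S) hC0 hbd hCle'
  rw [add_div] at hexp
  have hCn : ((C.toNat : ℕ) : ℝ) = C := by
    have : ((C.toNat : ℕ) : ℤ) = C := Int.toNat_of_nonneg h4.le
    exact_mod_cast this
  have h8 : (2 : ℝ) ^ (sumS h ps es + 30 * N + B1) * ((rv (c0 D) : ℝ) ^ F * (cD : ℝ) ^ F) ≤
      prodR h ps es * prodC cs es * 2 ^ (sb (c0 D) * F + B2) * (C : ℝ) ^ N := by
    rw [← hCn]
    exact_mod_cast h5'
  exact core (Nat.cast_nonneg _) (Nat.cast_nonneg _) hD0
    (Nat.cast_nonneg _) (Nat.cast_nonneg _) hC0 hA hB hexp h8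

/-- one list of exponents with its bound -/
structure Node where
  es : List ℕ
  B1 : ℕ
  B2 : ℕ

/-- all exponent lists in one box; `ps`, `D` are the polynomials in `δ` -/
noncomputable def chkBx (S N n : ℕ) (O : ℤ) (cs : List ℕ) (cD F : ℕ) (nodes : List Node) (h : ℤ)
    (ps : List (List ℤ)) (D : List ℤ) : Bool :=
  okS S h ps && okD h D && Nat.ble (2 * sb (c0 D)) S && okTab S n O h ps &&
  nodes.all fun nd => chkN S N n O h cs (ps.map fun p => rv (rf h p)) (ps.map fun p => sb (rf h p))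
    (tab S O h ps) (denL S F D) F (sb (c0 D)) (rv (c0 D) ^ F * cD ^ F) nd.es nd.B1 nd.B2

theorem prodF_map (m : ℤ) (d : ℝ) : ∀ (ps : List (List ℤ)) (es : List ℕ),
    prodF d (ps.map (shiftL m)) es = prodF (m + d) ps es
  | [], es => by cases es <;> simp [prodF]
  | p :: ps, [] => by simp [prodF]
  | p :: ps, e :: es => by simp only [List.map, prodF, ev_shiftL, prodF_map m d ps es]

theorem chkBx_sound {S N n : ℕ} {O : ℤ} {cs : List ℕ} {cD F : ℕ} {nodes : List Node} {h m : ℤ}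
    {ps : List (List ℤ)} {D : List ℤ} (hN : 0 < N)
    (hc : chkBx S N n O cs cD F nodes h (ps.map (shiftL m)) (shiftL m D) = true)
    {nd : Node} (hnd : nd ∈ nodes) {t : ℝ} (ht : |t - m| ≤ h) (hps : ∀ p ∈ ps, 0 ≤ ev p t)
    (hD0 : 0 ≤ ev D t) :
    prodF t ps nd.es * 2 ^ nd.B1 * cD ^ F ≤ prodC cs nd.es * 2 ^ nd.B2 * ev D t ^ F := by
  simp only [chkBx, Bool.and_eq_true] at hc
  obtain ⟨⟨⟨⟨h1, h2⟩, h3⟩, h4⟩, h5⟩ := hc
  have h6 := List.all_eq_true.1 h5 nd hnd
  have e1 : (m : ℝ) + (t - m) = t := by ring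
  have h7 := chkN_sound hN h1 h2 (Nat.le_of_ble_eq_true h3) h4 h6 ht (by
    intro p hp
    obtain ⟨q, hq, rfl⟩ := List.mem_map.1 hp
    rw [ev_shiftL, e1]
    exact hps q hq) (by rw [ev_shiftL, e1]; exact hD0)
  rwa [prodF_map, ev_shiftL, e1] at h7

/-- boxes given by centre and half width, the first one starts at or before `a` and the others
at or before the end of the preceding one -/
noncomputable def chkList (S N n : ℕ) (O : ℤ) (cs : List ℕ) (cD F : ℕ) (nodes : List Node)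
    (ps : List (List ℤ)) (D : List ℤ) : ℤ → List (ℤ × ℤ) → Bool
  | _, [] => true
  | a, (m, h) :: hs => decide (m - h ≤ a) &&
      chkBx S N n O cs cD F nodes h (ps.map (shiftL m)) (shiftL m D) &&
      chkList S N n O cs cD F nodes ps D (m + h) hs

/-- the right end of the last box -/
def endL : ℤ → List (ℤ × ℤ) → ℤ
  | a, [] => a
  | _, (m, h) :: hs => endL (m + h) hs

theorem chkList_sound {S N n : ℕ} {O : ℤ} {cs : List ℕ} {cD F : ℕ} {nodes : List Node}
    {ps : List (List ℤ)} {D : List ℤ} (hN : 0 < N) : ∀ {a : ℤ} {hs : List (ℤ × ℤ)},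
    chkList S N n O cs cD F nodes ps D a hs = true → hs ≠ [] → ∀ {nd : Node}, nd ∈ nodes →
    ∀ {t : ℝ}, a ≤ t → t ≤ endL a hs → (∀ p ∈ ps, 0 ≤ ev p t) → 0 ≤ ev D t →
    prodF t ps nd.es * 2 ^ nd.B1 * cD ^ F ≤ prodC cs nd.es * 2 ^ nd.B2 * ev D t ^ F
  | a, [], _, h0, _, _, _, _, _, _, _ => absurd rfl h0
  | a, (m, h) :: hs, hc, _, nd, hnd, t, h1, h2, hps, hD0 => by
    simp only [chkList, Bool.and_eq_true, decide_eq_true_eq] at hc
    by_cases h3 : ((m + h : ℤ) : ℝ) < t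
    · refine chkList_sound hN hc.2 ?_ hnd h3.le h2 hps hD0
      rintro rfl
      simp only [endL] at h2
      exact absurd h2 (not_le.2 h3)
    · refine chkBx_sound hN hc.1.2 hnd ?_ hps hD0
      have h4 : ((m - h : ℤ) : ℝ) ≤ a := by exact_mod_cast hc.1.1
      push_cast at h3 h4
      rw [not_lt] at h3
      rw [abs_le]
      constructor <;> linarith

end Pool.Agent.Lib.PiMuB
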