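import Pool.Agent.Lib.PiMuB.Reg1

/-!
# Kernel checks, region 1
-/

set_option autoImplicit false

namespace Pool.Agent.Lib.PiMuB

def bx1_0 : List (ℤ × ℤ) := [(329, 329), (714, 56), (791, 21), (822, 10), (841, 9), (858, 8)]

theorem ck1_0 : chkList 170 4096 9 (2 ^ 234) cs1 1000000000000 5400 nodesP ps1 D1 (0) bx1_0 = true := by
  decide +kernel

def bx1_1 : List (ℤ × ℤ) := [(874, 8), (893, 11), (922, 18), (950, 10), (966, 6), (978, 6)]

theorem ck1_1 : chkList 170 4096 9 (2 ^ 234) cs1 1000000000000 5400 nodesP ps1 D1 (866) bx1_1 = true := by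
  decide +kernel

end Pool.Agent.Lib.PiMuB
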