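import Pool.Agent.Lib.PiMuB.Reg1

/-!
# Kernel checks, region 1
-/

set_option autoImplicit false

namespace Pool.Agent.Lib.PiMuB

def bx1_2 : List (ℤ × ℤ) := [(996, 12), (1024, 16), (1047, 7), (1059, 5), (1070, 6), (1089, 13)]

theorem ck1_2 : chkList 170 4096 9 (2 ^ 234) cs1 1000000000000 5400 nodesP ps1 D1 (984) bx1_2 = true := by
  decide +kernel

def bx1_3 : List (ℤ × ℤ) := [(1120, 18), (1150, 12), (1169, 7), (1184, 8), (1196, 4)]

theorem ck1_3 : chkList 170 4096 9 (2 ^ 234) cs1 1000000000000 5400 nodesP ps1 D1 (1102) bx1_3 = true := by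
  decide +kernel

end Pool.Agent.Lib.PiMuB
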