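import Pool.Agent.Lib.PiMuB.Reg2

/-!
# Kernel checks, region 2
-/

set_option autoImplicit false

namespace Pool.Agent.Lib.PiMuB

def bx2_0 : List (ℤ × ℤ) := [(12, 12), (41, 17), (70, 12), (87, 5), (98, 6), (112, 8)]

theorem ck2_0 : chkList 170 4096 9 (2 ^ 234) cs2 625000000000000 5400 nodesP ps2 D2 (0) bx2_0 = true := by
  decide +kernel

def bx2_1 : List (ℤ × ℤ) := [(129, 9), (141, 3), (148, 4), (159, 7), (178, 12), (193, 3)]

theorem ck2_1 : chkList 170 4096 9 (2 ^ 234) cs2 625000000000000 5400 nodesP ps2 D2 (120) bx2_1 = true := by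
  decide +kernel

def bx2_2 : List (ℤ × ℤ) := [(200, 4), (210, 6), (229, 13), (247, 5), (254, 2), (259, 3)]

theorem ck2_2 : chkList 170 4096 9 (2 ^ 234) cs2 625000000000000 5400 nodesP ps2 D2 (196) bx2_2 = true := by
  decide +kernel

end Pool.Agent.Lib.PiMuB
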