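import Pool.Agent.Lib.PiMuB.Reg2

/-!
# Kernel checks, region 2
-/

set_option autoImplicit false

namespace Pool.Agent.Lib.PiMuB

def bx2_3 : List (ℤ × ℤ) := [(265, 3), (277, 9), (296, 10), (309, 3), (314, 2), (318, 2)]

theorem ck2_3 : chkList 170 4096 9 (2 ^ 234) cs2 625000000000000 5400 nodesP ps2 D2 (262) bx2_3 = true := by
  decide +kernel

def bx2_4 : List (ℤ × ℤ) := [(323, 3), (335, 9), (352, 8), (362, 2), (366, 2), (370, 2)]

theorem ck2_4 : chkList 170 4096 9 (2 ^ 234) cs2 625000000000000 5400 nodesP ps2 D2 (320) bx2_4 = true := by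
  decide +kernel

def bx2_5 : List (ℤ × ℤ) := [(375, 3), (385, 7), (403, 11), (420, 6), (428, 2), (432, 2)]

theorem ck2_5 : chkList 170 4096 9 (2 ^ 234) cs2 625000000000000 5400 nodesP ps2 D2 (372) bx2_5 = true := by
  decide +kernel

end Pool.Agent.Lib.PiMuB
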