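import Pool.Agent.Lib.PiMuB.Reg2

/-!
# Kernel checks, region 2
-/

set_option autoImplicit false

namespace Pool.Agent.Lib.PiMuB

def bx2_6 : List (ℤ × ℤ) := [(436, 2), (441, 3), (453, 9), (470, 8), (480, 2), (484, 2)]

theorem ck2_6 : chkList 170 4096 9 (2 ^ 234) cs2 625000000000000 5400 nodesP ps2 D2 (434) bx2_6 = true := by
  decide +kernel

def bx2_7 : List (ℤ × ℤ) := [(488, 2), (493, 3), (501, 5), (517, 11), (533, 5), (540, 2)]

theorem ck2_7 : chkList 170 4096 9 (2 ^ 234) cs2 625000000000000 5400 nodesP ps2 D2 (486) bx2_7 = true := by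
  decide +kernel

def bx2_8 : List (ℤ × ℤ) := [(544, 2), (549, 3), (559, 7), (574, 8), (586, 4), (592, 2)]

theorem ck2_8 : chkList 170 4096 9 (2 ^ 234) cs2 625000000000000 5400 nodesP ps2 D2 (542) bx2_8 = true := by
  decide +kernel

end Pool.Agent.Lib.PiMuB
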