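import Pool.Agent.Lib.PiMuB.Reg2

/-!
# Kernel checks, region 2
-/

set_option autoImplicit false

namespace Pool.Agent.Lib.PiMuB

def bx2_9 : List (ℤ × ℤ) := [(596, 2), (603, 5), (615, 7), (624, 2), (628, 2), (632, 2)]

theorem ck2_9 : chkList 170 4096 9 (2 ^ 234) cs2 625000000000000 5400 nodesP ps2 D2 (594) bx2_9 = true := by
  decide +kernel

def bx2_10 : List (ℤ × ℤ) := [(638, 4), (649, 7), (659, 3), (663, 1), (665, 1), (668, 2)]

theorem ck2_10 : chkList 170 4096 9 (2 ^ 234) cs2 625000000000000 5400 nodesP ps2 D2 (634) bx2_10 = true := by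
  decide +kernel

def bx2_11 : List (ℤ × ℤ) := [(675, 5), (682, 2), (685, 1), (687, 1), (689, 1), (691, 1)]

theorem ck2_11 : chkList 170 4096 9 (2 ^ 234) cs2 625000000000000 5400 nodesP ps2 D2 (670) bx2_11 = true := by
  decide +kernel

end Pool.Agent.Lib.PiMuB
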