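import Pool.Agent.Lib.PiMuB.Reg2

/-!
# Kernel checks, region 2
-/

set_option autoImplicit false

namespace Pool.Agent.Lib.PiMuB

def bx2_12 : List (ℤ × ℤ) := [(694, 2), (699, 3), (706, 4), (713, 3), (718, 2), (722, 2)]

theorem ck2_12 : chkList 170 4096 9 (2 ^ 234) cs2 625000000000000 5400 nodesP ps2 D2 (692) bx2_12 = true := by
  decide +kernel

def bx2_13 : List (ℤ × ℤ) := [(726, 2), (731, 3), (738, 4), (752, 10), (785, 23), (880, 72)]

theorem ck2_13 : chkList 170 4096 9 (2 ^ 234) cs2 625000000000000 5400 nodesP ps2 D2 (724) bx2_13 = true := by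
  decide +kernel

def bx2_14 : List (ℤ × ℤ) := [(976, 24)]

theorem ck2_14 : chkList 170 4096 9 (2 ^ 234) cs2 625000000000000 5400 nodesP ps2 D2 (952) bx2_14 = true := by
  decide +kernel

end Pool.Agent.Lib.PiMuB
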