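import Pool.Agent.Lib.PiMuB.RegC

/-!
# Kernel checks, region C
-/

set_option autoImplicit false

namespace Pool.Agent.Lib.PiMuB

def bxC_0 : List (ℤ × ℤ) := [(700, 400), (1335, 235), (1606, 36), (1651, 9), (1665, 5), (1674, 4)]

theorem ckC_0 : chkList 170 4096 9 (2 ^ 234) csC 400000000 5400 nodesC psC DC (300) bxC_0 = true := by
  decide +kernel

def bxC_1 : List (ℤ × ℤ) := [(1682, 4), (1689, 3), (1694, 2), (1697, 1), (1699, 1)]

theorem ckC_1 : chkList 170 4096 9 (2 ^ 234) csC 400000000 5400 nodesC psC DC (1678) bxC_1 = true := by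
  decide +kernel

end Pool.Agent.Lib.PiMuB
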