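import Pool.Agent.Lib.PiMuB.Link

/-!
# The factors and the nodes
-/

set_option autoImplicit false

namespace Pool.Agent.Lib.PiMuB

/-- the parameters of the factors in hundredths: `(x, y)` is `(w - x)^2 + y^2`, `(x, 0)` is `w - x` -/
def atoms : List (ℤ × ℤ) := [(-157, 13), (-168, 30), (-177, 46), (-187, 63), (-197, 82), (-206,
  101), (-215, 122), (-225, 144), (-233, 166), (-241, 188), (-248, 206), (-253, 222), (-257, 235),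
  (-261, 248), (-125, 0), (-104, 0), (-86, 0), (6921, 0)]

/-- the nodes: degree, bound, exponents -/
def raw : List (ℕ × ℕ × List ℕ) := [
(0, 26561, [0, 0, 0, 0, 0, 0, 0, 0, 0, 0, 0, 0, 0, 0, 0, 0, 0, 0]),
(24, 26617, [0, 0, 0, 0, 9, 3, 0, 0, 0, 0, 0, 0, 0, 0, 0, 0, 0, 0]),
(72, 26685, [0, 0, 0, 8, 9, 15, 4, 0, 0, 0, 0, 0, 0, 0, 0, 0, 0, 0]),
(144, 26747, [0, 0, 5, 13, 17, 13, 21, 3, 0, 0, 0, 0, 0, 0, 0, 0, 0, 0]),
(216, 26789, [0, 3, 11, 15, 19, 19, 25, 16, 0, 0, 0, 0, 0, 0, 0, 0, 0, 0]),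
(324, 26809, [1, 12, 10, 23, 19, 29, 23, 35, 10, 0, 0, 0, 0, 0, 0, 0, 0, 0]),
(450, 26798, [9, 11, 18, 22, 29, 26, 40, 28, 34, 8, 0, 0, 0, 0, 0, 0, 0, 0]),
(585, 26760, [16, 15, 16, 30, 29, 34, 41, 40, 36, 31, 1, 0, 0, 0, 7, 0, 0, 0]),
(720, 26696, [15, 15, 24, 28, 38, 33, 51, 42, 46, 38, 17, 0, 0, 0, 21, 5, 0, 0]),
(855, 26603, [18, 16, 27, 30, 43, 34, 59, 43, 55, 40, 34, 8, 0, 0, 24, 17, 0, 0]),
(990, 26497, [18, 20, 28, 33, 45, 42, 57, 54, 55, 53, 29, 28, 3, 0, 26, 30, 4, 0]),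
(1089, 26412, [21, 18, 31, 36, 47, 41, 65, 52, 65, 51, 37, 31, 13, 0, 27, 36, 10, 0]),
(1188, 26315, [21, 21, 32, 36, 52, 42, 67, 58, 64, 59, 37, 33, 27, 2, 31, 35, 20, 0]),
(1242, 26261, [23, 21, 32, 40, 50, 44, 69, 58, 68, 60, 38, 35, 32, 5, 33, 29, 30, 0]),
(1296, 26206, [21, 23, 32, 41, 50, 47, 69, 61, 68, 63, 42, 36, 31, 12, 41, 25, 38, 0]),
(1350, 26148, [22, 25, 33, 41, 51, 48, 71, 62, 72, 63, 43, 41, 26, 22, 39, 24, 47, 0]),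
(1404, 25741, [21, 25, 33, 42, 52, 48, 72, 62, 73, 64, 43, 44, 24, 26, 41, 23, 51, 31]),
(1458, 25300, [20, 26, 33, 42, 53, 48, 74, 61, 74, 65, 44, 44, 22, 31, 43, 22, 54, 65]),
(1512, 24839, [24, 27, 30, 42, 52, 48, 75, 62, 73, 67, 44, 45, 20, 35, 42, 23, 59, 100]),
(1620, 23886, [22, 29, 30, 44, 51, 51, 71, 67, 71, 70, 43, 48, 18, 42, 45, 22, 65, 174]),
(1710, 23067, [23, 27, 31, 44, 53, 50, 75, 66, 72, 71, 42, 51, 16, 48, 41, 20, 73, 238]),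
(1800, 22231, [21, 27, 32, 46, 54, 51, 74, 68, 74, 70, 44, 51, 15, 54, 45, 18, 71, 304]),
(1802, 22208, [21, 27, 32, 46, 55, 51, 74, 68, 74, 70, 44, 51, 15, 54, 45, 18, 71, 304])]

/-- the nodes for the path -/
def nodesP : List Node := raw.map fun r => ⟨2700 :: 2700 :: r.2.2, r.2.1, 0⟩

/-- the nodes for the circle -/
def nodesC : List Node := raw.map fun r => ⟨2700 :: 2700 :: r.2.2, r.2.1, 66888⟩

end Pool.Agent.Lib.PiMuB
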