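import Pool.Agent.Lib.PiMu.Defs

/-!
# Irrationality measure of `π`, refined row polynomials: definitions

The arithmetic modules of `Pool.Agent.Lib.PiMu` are used unchanged, for `n = 60 m`. The row
polynomials are interpolated between node polynomials `N_j` of degree `D_j`, each a product of
powers of the factors `w - a`, `(w - a)^2 + b^2` (`w = z^2 = 25 - v`).
-/

set_option autoImplicit false

namespace Pool.Agent.Lib.PiMuB

open Polynomial Pool.Agent.Lib.PiMu

/-- value at `v = 25 - z^2` -/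
noncomputable def vev (N : ℚ[X]) (z : ℂ) : ℂ := (N.map (algebraMap ℚ ℂ)).eval (25 - z ^ 2)

/-- A node: a monic polynomial of degree `D` with the bound `2^(-b)` on the path and
`2^(66888 - b)` on the circle. -/
def Good (D b : ℕ) (N : ℚ[X]) : Prop :=
  N.Monic ∧ N.natDegree = D ∧
  (∀ z : ℂ, OnPath z → ‖Zf z‖ ^ 5400 * ‖vev N z‖ ^ 2 * 2 ^ b ≤ 1) ∧
  (∀ z : ℂ, ‖z - 5‖ = 7 / 2 → ‖Zf z‖ ^ 5400 * ‖vev N z‖ ^ 2 * 2 ^ b ≤ 2 ^ 66888)

/-- trapezoidal sum `∑ (D_{j+1} - D_j) (b_j + b_{j+1})` of a list of nodes `(D, b)` -/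
def trap : List (ℕ × ℕ) → ℕ
  | (D, b) :: (D', b') :: l => (D' - D) * (b + b') + trap ((D', b') :: l)
  | _ => 0

/-- a chain of nodes of increasing degrees, starting with degree `D` and bound `b` and ending with
degree `E` and bound `e` -/
inductive Chain : ℕ → ℕ → List (ℕ × ℕ) → ℕ → ℕ → Prop
  | one (D b : ℕ) (N : ℚ[X]) (h : Good D b N) : Chain D b [(D, b)] D b
  | cons (D b : ℕ) (N : ℚ[X]) (h : Good D b N) {D' b' E e : ℕ} {l : List (ℕ × ℕ)} (hD : D < D')
      (hc : Chain D' b' l E e) : Chain D b ((D, b) :: l) E e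

end Pool.Agent.Lib.PiMuB
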