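import Pool.Agent.Lib.PiMu.Digits

/-!
# From the irrationality exponent of `π` to its digits, exponent `61/10`
-/

set_option autoImplicit false

namespace Pool.Agent.Lib.PiMuB

open Pool.Agent.Lib.PiMu

/-- **Repetitions in the digits of `π`.** If the block of digits at the places
`m + 1, …, m + l` is repeated `r` places later, then `l ≤ (51/10)(m + r) + C`, in every base. -/
theorem digits_repetition
    (hmu : ∃ Q : ℕ, ∀ q : ℕ, Q ≤ q → ∀ p : ℤ,
      1 / (q : ℝ) ^ (61 / 10 : ℝ) ≤ |Real.pi - p / q|) :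
    ∃ C : ℝ, ∀ b : ℕ, 2 ≤ b → ∀ m r l : ℕ, 1 ≤ r →
      (∀ i, m < i → i ≤ m + l →
        ⌊(b : ℝ) ^ (i + r) * Real.pi⌋₊ % b = ⌊(b : ℝ) ^ i * Real.pi⌋₊ % b) →
      (l : ℝ) ≤ 51 / 10 * (m + r) + C := by
  obtain ⟨Q, hQ⟩ := hmu
  -- the finitely many small denominators
  have hsmall : ∃ C : ℝ, 0 ≤ C ∧ ∀ q : ℕ, 1 ≤ q → q < Q → ∀ p : ℤ, ∀ l : ℕ,
      |(q : ℝ) * Real.pi - p| * 2 ^ l < 1 → (l : ℝ) ≤ C := by
    have hone : ∀ q : ℕ, 1 ≤ q → ∃ C : ℝ, 0 ≤ C ∧ ∀ p : ℤ, ∀ l : ℕ,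
        |(q : ℝ) * Real.pi - p| * 2 ^ l < 1 → (l : ℝ) ≤ C := by
      intro q hq
      have hirr : Irrational ((q : ℝ) * Real.pi) := by
        have := irrational_pi.natCast_mul (show q ≠ 0 by omega)
        exact this
      -- distance to the nearest integer
      have hne : (q : ℝ) * Real.pi - round ((q : ℝ) * Real.pi) ≠ 0 := by
        intro h0
        apply hirr
        exact ⟨(round ((q : ℝ) * Real.pi) : ℚ), by push_cast; linarith⟩
      have hd : 0 < |(q : ℝ) * Real.pi - round ((q : ℝ) * Real.pi)| := abs_pos.2 hne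
      obtain ⟨K, hK⟩ := pow_unbounded_of_one_lt
        (1 / |(q : ℝ) * Real.pi - round ((q : ℝ) * Real.pi)|) (show (1 : ℝ) < 2 by norm_num)
      refine ⟨K, by positivity, fun p l hl => ?_⟩
      have h1 : |(q : ℝ) * Real.pi - round ((q : ℝ) * Real.pi)| ≤ |(q : ℝ) * Real.pi - p| :=
        round_le _ p
      by_contra hcon
      push Not at hcon
      have h2 : K ≤ l := by
        have : (K : ℝ) < l := hcon
        exact_mod_cast this.le
      have h3 : (2 : ℝ) ^ K ≤ 2 ^ l := pow_le_pow_right₀ (by norm_num) h2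
      rw [div_lt_iff₀ hd] at hK
      have h4 : (2 : ℝ) ^ K * |(q : ℝ) * Real.pi - round ((q : ℝ) * Real.pi)| ≤
          |(q : ℝ) * Real.pi - p| * 2 ^ l := by
        rw [mul_comm]
        exact mul_le_mul h1 h3 (by positivity) (abs_nonneg _)
      linarith
    choose! C hC using hone
    refine ⟨∑ q ∈ (Finset.range Q).filter (fun q => 1 ≤ q), C q, ?_, ?_⟩
    · refine Finset.sum_nonneg fun q hq => ?_
      exact (hC q (Finset.mem_filter.1 hq).2).1
    · intro q hq hqQ p l hl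
      refine ((hC q hq).2 p l hl).trans ?_
      refine Finset.single_le_sum (f := C) (fun q' hq' => ?_)
        (Finset.mem_filter.2 ⟨Finset.mem_range.2 hqQ, hq⟩)
      exact (hC q' (Finset.mem_filter.1 hq').2).1
  obtain ⟨C, hC0, hC⟩ := hsmall
  refine ⟨C, fun b hb m r l hr h => ?_⟩
  obtain ⟨q, hq1, hqb, p, hp⟩ := Dig_approx Real.pi Real.pi_pos.le b hb m r l hr h
  have hb2 : (2 : ℝ) ≤ b := by exact_mod_cast hb
  have hqpos : (0 : ℝ) < q := by exact_mod_cast hq1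
  by_cases hqQ : q < Q
  · have h1 : |(q : ℝ) * Real.pi - p| * 2 ^ l < 1 := by
      refine lt_of_le_of_lt ?_ hp
      exact mul_le_mul_of_nonneg_left (pow_le_pow_left₀ (by norm_num) hb2 l) (abs_nonneg _)
    have h2 := hC q hq1 hqQ p l h1
    have h3 : (0 : ℝ) ≤ 51 / 10 * (m + r) := by positivity
    linarith
  · push Not at hqQ
    have h1 := hQ q hqQ p
    have h2 : |Real.pi - p / q| = |(q : ℝ) * Real.pi - p| / q := by
      rw [eq_div_iff hqpos.ne', ← abs_of_pos hqpos, ← abs_mul, abs_of_pos hqpos]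
      congr 1
      field_simp
    rw [h2] at h1
    -- `b ^ l ≤ q ^ (51/10)`
    have h3 : (b : ℝ) ^ l ≤ (q : ℝ) ^ (51 / 10 : ℝ) := by
      have hbl : 0 < (b : ℝ) ^ l := by positivity
      have hq13 : 0 < (q : ℝ) ^ (61 / 10 : ℝ) := Real.rpow_pos_of_pos hqpos _
      have h4 : (q : ℝ) ^ (61 / 10 : ℝ) = (q : ℝ) ^ (51 / 10 : ℝ) * q := by
        rw [← Real.rpow_add_one hqpos.ne']
        norm_num
      have h5 : (1 : ℝ) * q ≤ |(q : ℝ) * Real.pi - p| * (q : ℝ) ^ (61 / 10 : ℝ) := by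
        rwa [div_le_div_iff₀ hq13 hqpos] at h1
      rw [h4] at h5
      have h6 : (1 : ℝ) ≤ |(q : ℝ) * Real.pi - p| * (q : ℝ) ^ (51 / 10 : ℝ) := by
        have : (1 : ℝ) * q ≤ (|(q : ℝ) * Real.pi - p| * (q : ℝ) ^ (51 / 10 : ℝ)) * q := by
          calc (1 : ℝ) * q ≤ _ := h5
            _ = _ := by ring
        exact le_of_mul_le_mul_right this hqpos
      by_contra hcon
      push Not at hcon
      have h7 : |(q : ℝ) * Real.pi - p| * (q : ℝ) ^ (51 / 10 : ℝ) ≤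
          |(q : ℝ) * Real.pi - p| * (b : ℝ) ^ l :=
        mul_le_mul_of_nonneg_left hcon.le (abs_nonneg _)
      linarith
    have h4 : (q : ℝ) ^ (51 / 10 : ℝ) ≤ (b : ℝ) ^ (51 / 10 * ((m : ℝ) + r)) := by
      have h5 : (q : ℝ) ≤ (b : ℝ) ^ ((m : ℝ) + r) := by
        have h6 : (q : ℝ) ≤ (b : ℝ) ^ (m + r) := by exact_mod_cast hqb
        rwa [← Real.rpow_natCast, Nat.cast_add] at h6
      calc (q : ℝ) ^ (51 / 10 : ℝ) ≤ ((b : ℝ) ^ ((m : ℝ) + r)) ^ (51 / 10 : ℝ) :=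
            Real.rpow_le_rpow hqpos.le h5 (by norm_num)
        _ = (b : ℝ) ^ (51 / 10 * ((m : ℝ) + r)) := by
            rw [← Real.rpow_mul (by positivity), mul_comm]
    have h5 : (b : ℝ) ^ (l : ℝ) ≤ (b : ℝ) ^ (51 / 10 * ((m : ℝ) + r)) := by
      rw [Real.rpow_natCast]
      exact h3.trans h4
    have h6 : (l : ℝ) ≤ 51 / 10 * ((m : ℝ) + r) :=
      (Real.rpow_le_rpow_left_iff (show (1 : ℝ) < b by linarith)).1 h5
    linarith

end Pool.Agent.Lib.PiMuB
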