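import Pool.Agent.Lib.PiMuB.Cert
import Pool.Agent.Lib.PiMuB.Defs

/-!
# From the kernel checks to the bounds for the node polynomials
-/

set_option autoImplicit false

namespace Pool.Agent.Lib.PiMuB

open Polynomial Pool.Agent.Lib.PiMu

/-- the factor with the parameters `a` (in hundredths), as a polynomial in `v = 25 - w` -/
noncomputable def atomP (a : ℤ × ℤ) : ℚ[X] :=
  if a.2 = 0 then X - C (25 - (a.1 : ℚ) / 100)
  else (X - C (25 - (a.1 : ℚ) / 100)) ^ 2 + C (((a.2 : ℚ) / 100) ^ 2)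

/-- the factor as a function of `z` -/
noncomputable def fz (a : ℤ × ℤ) (z : ℂ) : ℂ :=
  if a.2 = 0 then z ^ 2 - (a.1 : ℂ) / 100
  else (z ^ 2 - (a.1 : ℂ) / 100) ^ 2 + ((a.2 : ℂ) / 100) ^ 2

/-- product of powers of the factors -/
noncomputable def nodeP : List (ℤ × ℤ) → List ℕ → ℚ[X]
  | a :: as, e :: es => atomP a ^ e * nodeP as es
  | _, _ => 1

/-- the degree of `nodeP` -/
def degN : List (ℤ × ℤ) → List ℕ → ℕ
  | a :: as, e :: es => e * (if a.2 = 0 then 1 else 2) + degN as es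
  | _, _ => 0

/-- `∏ x_k ^ e_k` -/
noncomputable def prodX : List ℝ → List ℕ → ℝ
  | x :: xs, e :: es => x ^ e * prodX xs es
  | _, _ => 1

theorem atomP_monic (a : ℤ × ℤ) : (atomP a).Monic ∧
    (atomP a).natDegree = if a.2 = 0 then 1 else 2 := by
  unfold atomP
  split_ifs with h
  · exact ⟨monic_X_sub_C _, natDegree_X_sub_C _⟩
  · have h2 : ((X - C (25 - (a.1 : ℚ) / 100)) ^ 2 : ℚ[X]).Monic := (monic_X_sub_C _).pow 2
    have h3 : ((X - C (25 - (a.1 : ℚ) / 100)) ^ 2 : ℚ[X]).natDegree = 2 := by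
      rw [(monic_X_sub_C _).natDegree_pow, natDegree_X_sub_C]
    have h4 : (C (((a.2 : ℚ) / 100) ^ 2) : ℚ[X]).degree <
        ((X - C (25 - (a.1 : ℚ) / 100)) ^ 2 : ℚ[X]).degree := by
      refine lt_of_le_of_lt degree_C_le ?_
      rw [degree_eq_natDegree h2.ne_zero, h3]
      exact_mod_cast (by norm_num : 0 < 2)
    exact ⟨h2.add_of_left h4, by rw [natDegree_add_eq_left_of_degree_lt h4, h3]⟩

theorem nodeP_monic : ∀ (as : List (ℤ × ℤ)) (es : List ℕ), (nodeP as es).Monic ∧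
    (nodeP as es).natDegree = degN as es
  | [], es => by cases es <;> simp [nodeP, degN, monic_one]
  | a :: as, [] => by simp [nodeP, degN, monic_one]
  | a :: as, e :: es => by
    have h1 := atomP_monic a
    have h2 := nodeP_monic as es
    simp only [nodeP, degN]
    refine ⟨(h1.1.pow e).mul h2.1, ?_⟩
    rw [(h1.1.pow e).natDegree_mul h2.1, h1.1.natDegree_pow, h1.2, h2.2]

theorem norm_vev_atomP (a : ℤ × ℤ) (z : ℂ) : ‖vev (atomP a) z‖ = ‖fz a z‖ := by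
  unfold vev atomP fz
  split_ifs with h
  · have : ((X - C (25 - (a.1 : ℚ) / 100) : ℚ[X]).map (algebraMap ℚ ℂ)).eval (25 - z ^ 2) =
        -(z ^ 2 - (a.1 : ℂ) / 100) := by
      simp
    rw [this, norm_neg]
  · congr 1
    simp
    ring

theorem norm_vev_nodeP (z : ℂ) : ∀ (as : List (ℤ × ℤ)) (es : List ℕ),
    ‖vev (nodeP as es) z‖ ^ 2 = prodX (as.map fun a => ‖fz a z‖ ^ 2) es
  | [], es => by cases es <;> simp [nodeP, prodX, vev]
  | a :: as, [] => by simp [nodeP, prodX, vev]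
  | a :: as, e :: es => by
    have ih := norm_vev_nodeP z as es
    have h1 : vev (nodeP (a :: as) (e :: es)) z = vev (atomP a) z ^ e * vev (nodeP as es) z := by
      simp [nodeP, vev]
    rw [h1, norm_mul, norm_pow, mul_pow, ih, norm_vev_atomP]
    simp only [List.map, prodX]
    rw [← pow_mul, ← pow_mul, mul_comm e 2]

/-- nine zeros -/
def z9 : List ℤ := [0, 0, 0, 0, 0, 0, 0, 0, 0]

/-- `s^2 |w - a|^2` -/
def realP (k : ℤ) (U V : List ℤ) (x : ℤ) : List ℤ :=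
  addL (convL (addL U [-(x * k)]) (addL U [-(x * k)])) V

/-- `s^4 |(w - a)^2 + b^2|^2` -/
def pairP (k : ℤ) (U V : List ℤ) (x y : ℤ) : List ℤ :=
  addL (convL (addL (addL (convL (addL U [-(x * k)]) (addL U [-(x * k)])) (mulL (-1) V)) [(y * k) ^ 2])
      (addL (addL (convL (addL U [-(x * k)]) (addL U [-(x * k)])) (mulL (-1) V)) [(y * k) ^ 2]))
    (mulL 4 (convL (convL (addL U [-(x * k)]) (addL U [-(x * k)])) V))

/-- the polynomial of one factor, nine coefficients -/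
def mkP (k : ℤ) (U V : List ℤ) (a : ℤ × ℤ) : List ℤ :=
  addL (if a.2 = 0 then realP k U V a.1 else pairP k U V a.1 a.2) z9

/-- the scale of one factor -/
def mkC (s : ℕ) (a : ℤ × ℤ) : ℕ := if a.2 = 0 then s ^ 2 else s ^ 4

theorem ev_z9 (t : ℝ) : ev z9 t = 0 := by
  simp [z9, ev]

theorem ev_realP (k : ℤ) (U V : List ℤ) (x : ℤ) (t : ℝ) :
    ev (realP k U V x) t = (ev U t - x * k) ^ 2 + ev V t := by
  simp only [realP, ev_addL, ev_convL, ev]
  push_cast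
  ring

theorem ev_pairP (k : ℤ) (U V : List ℤ) (x y : ℤ) (t : ℝ) :
    ev (pairP k U V x y) t = ((ev U t - x * k) ^ 2 - ev V t + (y * k) ^ 2) ^ 2 +
      4 * (ev U t - x * k) ^ 2 * ev V t := by
  simp only [pairP, ev_addL, ev_convL, ev_mulL, ev]
  push_cast
  ring

private theorem norm_fz_real (x : ℤ) (z : ℂ) :
    ‖z ^ 2 - (x : ℂ) / 100‖ ^ 2 = ((z ^ 2).re - x / 100) ^ 2 + (z ^ 2).im ^ 2 := by
  have e1 : ((x : ℂ) / 100) = ((x / 100 : ℝ) : ℂ) := by push_cast; rfl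
  rw [Complex.sq_norm, Complex.normSq_apply, e1, Complex.sub_re, Complex.sub_im, Complex.ofReal_re,
    Complex.ofReal_im]
  ring

private theorem norm_fz_pair (x y : ℤ) (z : ℂ) :
    ‖(z ^ 2 - (x : ℂ) / 100) ^ 2 + ((y : ℂ) / 100) ^ 2‖ ^ 2 =
      (((z ^ 2).re - x / 100) ^ 2 - (z ^ 2).im ^ 2 + (y / 100) ^ 2) ^ 2 +
        4 * ((z ^ 2).re - x / 100) ^ 2 * (z ^ 2).im ^ 2 := by
  have e1 : ((x : ℂ) / 100) = ((x / 100 : ℝ) : ℂ) := by push_cast; rfl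
  have e2 : ((y : ℂ) / 100) ^ 2 = (((y / 100) ^ 2 : ℝ) : ℂ) := by push_cast; rfl
  obtain ⟨A, hA⟩ : ∃ A, A = z ^ 2 - (x : ℂ) / 100 := ⟨_, rfl⟩
  have hre : A.re = (z ^ 2).re - x / 100 := by
    rw [hA, e1, Complex.sub_re, Complex.ofReal_re]
  have him : A.im = (z ^ 2).im := by
    rw [hA, e1, Complex.sub_im, Complex.ofReal_im, sub_zero]
  rw [← hre, ← him, ← hA, e2, Complex.sq_norm, Complex.normSq_apply, Complex.add_re, Complex.add_im,
    Complex.ofReal_re, Complex.ofReal_im, pow_two A, Complex.mul_re, Complex.mul_im]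
  ring

theorem ev_mkP {k : ℤ} {s : ℕ} (hs : (s : ℤ) = 100 * k) (U V : List ℤ) (t : ℝ) (z : ℂ)
    (hU : ev U t = s * (z ^ 2).re) (hV : ev V t = s ^ 2 * (z ^ 2).im ^ 2) (a : ℤ × ℤ) :
    ev (mkP k U V a) t = mkC s a * ‖fz a z‖ ^ 2 := by
  have hs' : (s : ℝ) = 100 * k := by exact_mod_cast hs
  unfold mkP mkC fz
  rw [ev_addL, ev_z9, add_zero]
  split_ifs with h
  · rw [ev_realP, norm_fz_real, hU, hV, hs']
    push_cast
    rw [hs']
    ring
  · rw [ev_pairP, norm_fz_pair, hU, hV, hs']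
    push_cast
    rw [hs']
    ring

theorem prodF_map_eq {k : ℤ} {s : ℕ} (hs : (s : ℤ) = 100 * k) (U V : List ℤ) (t : ℝ) (z : ℂ)
    (hU : ev U t = s * (z ^ 2).re) (hV : ev V t = s ^ 2 * (z ^ 2).im ^ 2) :
    ∀ (as : List (ℤ × ℤ)) (es : List ℕ), prodF t (as.map (mkP k U V)) es =
      prodC (as.map (mkC s)) es * prodX (as.map fun a => ‖fz a z‖ ^ 2) es
  | [], es => by cases es <;> simp [prodF, prodC, prodX]
  | a :: as, [] => by simp [prodF, prodC, prodX]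
  | a :: as, e :: es => by
    simp only [List.map, prodF, prodC, prodX, prodF_map_eq hs U V t z hU hV as es,
      ev_mkP hs U V t z hU hV a]
    push_cast
    ring

theorem prodC_pos {s : ℕ} (hs : 0 < s) : ∀ (as : List (ℤ × ℤ)) (es : List ℕ),
    0 < prodC (as.map (mkC s)) es
  | [], es => by cases es <;> simp [prodC]
  | a :: as, [] => by simp [prodC]
  | a :: as, e :: es => by
    simp only [List.map, prodC]
    refine Nat.mul_pos (Nat.pow_pos ?_) (prodC_pos hs as es)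
    unfold mkC
    split_ifs <;> positivity

/-- the list of polynomials of a region -/
def mkPs (k : ℤ) (U V Z : List ℤ) (as : List (ℤ × ℤ)) : List (List ℤ) :=
  addL Z z9 :: mkP k U V (-300, 400) :: as.map (mkP k U V)

/-- the list of scales of a region -/
def mkCs (s : ℕ) (as : List (ℤ × ℤ)) : List ℕ := s :: s ^ 4 :: as.map (mkC s)

theorem norm_Zf (z : ℂ) : ‖Zf z‖ = ‖z‖ * ‖fz (-300, 400) z‖ / ‖fz (2500, 0) z‖ ^ 2 := by
  have e1 : fz (-300, 400) z = (z ^ 2) ^ 2 + 6 * z ^ 2 + 25 := by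
    unfold fz
    norm_num
    ring
  have e2 : ‖fz (2500, 0) z‖ = ‖25 - z ^ 2‖ := by
    have : fz (2500, 0) z = -(25 - z ^ 2) := by
      unfold fz
      norm_num
    rw [this, norm_neg]
  rw [e1, e2]
  unfold Zf
  rw [norm_div, norm_mul, norm_pow]

theorem nonneg_mkPs {k : ℤ} {s : ℕ} (hs : (s : ℤ) = 100 * k) (U V Z : List ℤ) (t : ℝ) (z : ℂ)
    (hU : ev U t = s * (z ^ 2).re) (hV : ev V t = s ^ 2 * (z ^ 2).im ^ 2)
    (hZ : ev Z t = s * ‖z‖ ^ 2) (as : List (ℤ × ℤ)) : ∀ p ∈ mkPs k U V Z as, 0 ≤ ev p t := by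
  intro p hp
  simp only [mkPs, List.mem_cons, List.mem_map] at hp
  rcases hp with rfl | rfl | ⟨a, _, rfl⟩
  · rw [ev_addL, ev_z9, add_zero, hZ]
    positivity
  · rw [ev_mkP hs U V t z hU hV]
    positivity
  · rw [ev_mkP hs U V t z hU hV]
    positivity

/-- the link between the checked inequality and the norms -/
theorem link {k : ℤ} {s : ℕ} (hs0 : 0 < s) (hs : (s : ℤ) = 100 * k) (U V Z : List ℤ) (t : ℝ) (z : ℂ)
    (hU : ev U t = s * (z ^ 2).re) (hV : ev V t = s ^ 2 * (z ^ 2).im ^ 2)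
    (hZ : ev Z t = s * ‖z‖ ^ 2) (hz : 25 - z ^ 2 ≠ 0) (as : List (ℤ × ℤ)) (es : List ℕ) (B1 B2 cD : ℕ) (hcD : cD = s ^ 2)
    (h : prodF t (mkPs k U V Z as) (2700 :: 2700 :: es) * 2 ^ B1 * (cD : ℝ) ^ 5400 ≤
      prodC (mkCs s as) (2700 :: 2700 :: es) * 2 ^ B2 * ev (realP k U V 2500) t ^ 5400) :
    ‖Zf z‖ ^ 5400 * ‖vev (nodeP as es) z‖ ^ 2 * 2 ^ B1 ≤ 2 ^ B2 := by
  subst hcD
  have hsR : (0 : ℝ) < s := by exact_mod_cast hs0
  have hD : ev (realP k U V 2500) t = s ^ 2 * ‖fz (2500, 0) z‖ ^ 2 := by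
    have h1 := ev_mkP hs U V t z hU hV (2500, 0)
    simp only [mkP, mkC, if_true, ev_addL, ev_z9, add_zero] at h1
    rw [h1]
    push_cast
    ring
  have hf0 : 0 < ‖fz (2500, 0) z‖ := by
    rw [norm_pos_iff]
    have : fz (2500, 0) z = -(25 - z ^ 2) := by
      unfold fz
      norm_num
    rw [this]
    exact neg_ne_zero.2 hz
  simp only [mkPs, mkCs, prodF, prodC, ev_addL, ev_z9, add_zero, hZ,
    prodF_map_eq hs U V t z hU hV as es, ev_mkP hs U V t z hU hV (-300, 400), hD] at h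
  rw [norm_Zf, norm_vev_nodeP]
  obtain ⟨P, hP⟩ : ∃ P, P = prodX (as.map fun a => ‖fz a z‖ ^ 2) es := ⟨_, rfl⟩
  obtain ⟨Q, hQ⟩ : ∃ Q : ℕ, Q = prodC (as.map (mkC s)) es := ⟨_, rfl⟩
  have hQ0 : 0 < Q := hQ ▸ prodC_pos hs0 as es
  have hC : mkC s (-300, 400) = s ^ 4 := by simp [mkC]
  rw [← hP, ← hQ, hC] at h
  rw [← hP]
  obtain ⟨A, hA⟩ : ∃ A, A = ‖z‖ := ⟨_, rfl⟩
  obtain ⟨G, hG⟩ : ∃ G, G = ‖fz (-300, 400) z‖ := ⟨_, rfl⟩
  obtain ⟨H, hH⟩ : ∃ H, H = ‖fz (2500, 0) z‖ := ⟨_, rfl⟩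
  rw [← hA, ← hG, ← hH] at h
  rw [← hA, ← hG, ← hH]
  rw [← hH] at hf0
  have hQR : (0 : ℝ) < Q := by exact_mod_cast hQ0
  -- cancel the scales
  push_cast at h
  have e3 : (A * G / H ^ 2) ^ 5400 * P * 2 ^ B1 =
      ((A ^ 2) ^ 2700 * (G ^ 2) ^ 2700 * P * 2 ^ B1) / (H ^ 2) ^ 5400 := by
    rw [div_pow, mul_pow]
    rw [← pow_mul A 2 2700, ← pow_mul G 2 2700]
    field_simp
    ring
  rw [e3, div_le_iff₀ (by positivity)]
  have hK : (0 : ℝ) < (s : ℝ) ^ 2700 * ((s : ℝ) ^ 4) ^ 2700 * Q * ((s : ℝ) ^ 2) ^ 5400 := by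
    positivity
  refine le_of_mul_le_mul_left ?_ hK
  calc (s : ℝ) ^ 2700 * ((s : ℝ) ^ 4) ^ 2700 * Q * ((s : ℝ) ^ 2) ^ 5400 *
        ((A ^ 2) ^ 2700 * (G ^ 2) ^ 2700 * P * 2 ^ B1)
      = (s * A ^ 2) ^ 2700 * ((s ^ 4 * G ^ 2) ^ 2700 * (Q * P)) * 2 ^ B1 * ((s : ℝ) ^ 2) ^ 5400 := by
        rw [mul_pow, mul_pow]; ring
    _ ≤ _ := h
    _ = _ := by rw [mul_pow ((s : ℝ) ^ 2)]; ring

end Pool.Agent.Lib.PiMuB
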