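import Pool.Agent.Lib.PiMu.Analysis
import Pool.Agent.Lib.PiMuB.Ck1a
import Pool.Agent.Lib.PiMuB.Ck1b
import Pool.Agent.Lib.PiMuB.Ck2a
import Pool.Agent.Lib.PiMuB.Ck2b
import Pool.Agent.Lib.PiMuB.Ck2c
import Pool.Agent.Lib.PiMuB.Ck2d
import Pool.Agent.Lib.PiMuB.Ck2e
import Pool.Agent.Lib.PiMuB.CkC

/-!
# The node polynomials satisfy their bounds
-/

set_option autoImplicit false

namespace Pool.Agent.Lib.PiMuB

open Polynomial Pool.Agent.Lib.PiMu

private theorem all1 {nd : Node} (hnd : nd ∈ nodesP) {t : ℝ} (h0 : 0 ≤ t) (h1 : t ≤ 1200)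
    (hps : ∀ p ∈ ps1, 0 ≤ ev p t) (hD : 0 ≤ ev D1 t) :
    prodF t ps1 nd.es * 2 ^ nd.B1 * ((1000000000000 : ℕ) : ℝ) ^ 5400 ≤
      prodC cs1 nd.es * 2 ^ nd.B2 * ev D1 t ^ 5400 := by
  by_cases g0 : t ≤ 866
  · have e1 : endL (0) bx1_0 = 866 := by decide
    refine chkList_sound (by norm_num) ck1_0 (by simp [bx1_0]) hnd ?_ ?_ hps hD
    · exact_mod_cast h0
    · rw [e1]; exact_mod_cast g0
  by_cases g1 : t ≤ 984
  · have e1 : endL (866) bx1_1 = 984 := by decide
    refine chkList_sound (by norm_num) ck1_1 (by simp [bx1_1]) hnd ?_ ?_ hps hD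
    · exact_mod_cast (not_le.1 g0).le
    · rw [e1]; exact_mod_cast g1
  by_cases g2 : t ≤ 1102
  · have e1 : endL (984) bx1_2 = 1102 := by decide
    refine chkList_sound (by norm_num) ck1_2 (by simp [bx1_2]) hnd ?_ ?_ hps hD
    · exact_mod_cast (not_le.1 g1).le
    · rw [e1]; exact_mod_cast g2
  have e1 : endL (1102) bx1_3 = 1200 := by decide
  refine chkList_sound (by norm_num) ck1_3 (by simp [bx1_3]) hnd ?_ ?_ hps hD
  · exact_mod_cast (not_le.1 g2).le
  · rw [e1]; exact_mod_cast h1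

private theorem all2 {nd : Node} (hnd : nd ∈ nodesP) {t : ℝ} (h0 : 0 ≤ t) (h1 : t ≤ 1000)
    (hps : ∀ p ∈ ps2, 0 ≤ ev p t) (hD : 0 ≤ ev D2 t) :
    prodF t ps2 nd.es * 2 ^ nd.B1 * ((625000000000000 : ℕ) : ℝ) ^ 5400 ≤
      prodC cs2 nd.es * 2 ^ nd.B2 * ev D2 t ^ 5400 := by
  by_cases g0 : t ≤ 120
  · have e1 : endL (0) bx2_0 = 120 := by decide
    refine chkList_sound (by norm_num) ck2_0 (by simp [bx2_0]) hnd ?_ ?_ hps hD
    · exact_mod_cast h0
    · rw [e1]; exact_mod_cast g0
  by_cases g1 : t ≤ 196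
  · have e1 : endL (120) bx2_1 = 196 := by decide
    refine chkList_sound (by norm_num) ck2_1 (by simp [bx2_1]) hnd ?_ ?_ hps hD
    · exact_mod_cast (not_le.1 g0).le
    · rw [e1]; exact_mod_cast g1
  by_cases g2 : t ≤ 262
  · have e1 : endL (196) bx2_2 = 262 := by decide
    refine chkList_sound (by norm_num) ck2_2 (by simp [bx2_2]) hnd ?_ ?_ hps hD
    · exact_mod_cast (not_le.1 g1).le
    · rw [e1]; exact_mod_cast g2
  by_cases g3 : t ≤ 320
  · have e1 : endL (262) bx2_3 = 320 := by decide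
    refine chkList_sound (by norm_num) ck2_3 (by simp [bx2_3]) hnd ?_ ?_ hps hD
    · exact_mod_cast (not_le.1 g2).le
    · rw [e1]; exact_mod_cast g3
  by_cases g4 : t ≤ 372
  · have e1 : endL (320) bx2_4 = 372 := by decide
    refine chkList_sound (by norm_num) ck2_4 (by simp [bx2_4]) hnd ?_ ?_ hps hD
    · exact_mod_cast (not_le.1 g3).le
    · rw [e1]; exact_mod_cast g4
  by_cases g5 : t ≤ 434
  · have e1 : endL (372) bx2_5 = 434 := by decide
    refine chkList_sound (by norm_num) ck2_5 (by simp [bx2_5]) hnd ?_ ?_ hps hD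
    · exact_mod_cast (not_le.1 g4).le
    · rw [e1]; exact_mod_cast g5
  by_cases g6 : t ≤ 486
  · have e1 : endL (434) bx2_6 = 486 := by decide
    refine chkList_sound (by norm_num) ck2_6 (by simp [bx2_6]) hnd ?_ ?_ hps hD
    · exact_mod_cast (not_le.1 g5).le
    · rw [e1]; exact_mod_cast g6
  by_cases g7 : t ≤ 542
  · have e1 : endL (486) bx2_7 = 542 := by decide
    refine chkList_sound (by norm_num) ck2_7 (by simp [bx2_7]) hnd ?_ ?_ hps hD
    · exact_mod_cast (not_le.1 g6).le
    · rw [e1]; exact_mod_cast g7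
  by_cases g8 : t ≤ 594
  · have e1 : endL (542) bx2_8 = 594 := by decide
    refine chkList_sound (by norm_num) ck2_8 (by simp [bx2_8]) hnd ?_ ?_ hps hD
    · exact_mod_cast (not_le.1 g7).le
    · rw [e1]; exact_mod_cast g8
  by_cases g9 : t ≤ 634
  · have e1 : endL (594) bx2_9 = 634 := by decide
    refine chkList_sound (by norm_num) ck2_9 (by simp [bx2_9]) hnd ?_ ?_ hps hD
    · exact_mod_cast (not_le.1 g8).le
    · rw [e1]; exact_mod_cast g9
  by_cases g10 : t ≤ 670
  · have e1 : endL (634) bx2_10 = 670 := by decide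
    refine chkList_sound (by norm_num) ck2_10 (by simp [bx2_10]) hnd ?_ ?_ hps hD
    · exact_mod_cast (not_le.1 g9).le
    · rw [e1]; exact_mod_cast g10
  by_cases g11 : t ≤ 692
  · have e1 : endL (670) bx2_11 = 692 := by decide
    refine chkList_sound (by norm_num) ck2_11 (by simp [bx2_11]) hnd ?_ ?_ hps hD
    · exact_mod_cast (not_le.1 g10).le
    · rw [e1]; exact_mod_cast g11
  by_cases g12 : t ≤ 724
  · have e1 : endL (692) bx2_12 = 724 := by decide
    refine chkList_sound (by norm_num) ck2_12 (by simp [bx2_12]) hnd ?_ ?_ hps hD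
    · exact_mod_cast (not_le.1 g11).le
    · rw [e1]; exact_mod_cast g12
  by_cases g13 : t ≤ 952
  · have e1 : endL (724) bx2_13 = 952 := by decide
    refine chkList_sound (by norm_num) ck2_13 (by simp [bx2_13]) hnd ?_ ?_ hps hD
    · exact_mod_cast (not_le.1 g12).le
    · rw [e1]; exact_mod_cast g13
  have e1 : endL (952) bx2_14 = 1000 := by decide
  refine chkList_sound (by norm_num) ck2_14 (by simp [bx2_14]) hnd ?_ ?_ hps hD
  · exact_mod_cast (not_le.1 g13).le
  · rw [e1]; exact_mod_cast h1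

private theorem allC {nd : Node} (hnd : nd ∈ nodesC) {t : ℝ} (h0 : 300 ≤ t) (h1 : t ≤ 1700)
    (hps : ∀ p ∈ psC, 0 ≤ ev p t) (hD : 0 ≤ ev DC t) :
    prodF t psC nd.es * 2 ^ nd.B1 * ((400000000 : ℕ) : ℝ) ^ 5400 ≤
      prodC csC nd.es * 2 ^ nd.B2 * ev DC t ^ 5400 := by
  by_cases g0 : t ≤ 1678
  · have e1 : endL (300) bxC_0 = 1678 := by decide
    refine chkList_sound (by norm_num) ckC_0 (by simp [bxC_0]) hnd ?_ ?_ hps hD
    · exact_mod_cast h0
    · rw [e1]; exact_mod_cast g0
  have e1 : endL (1678) bxC_1 = 1700 := by decide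
  refine chkList_sound (by norm_num) ckC_1 (by simp [bxC_1]) hnd ?_ ?_ hps hD
  · exact_mod_cast (not_le.1 g0).le
  · rw [e1]; exact_mod_cast h1

private theorem good_aux (r : ℕ × ℕ × List ℕ) (hr : r ∈ raw) :
    (∀ z : ℂ, OnPath z → ‖Zf z‖ ^ 5400 * ‖vev (nodeP atoms r.2.2) z‖ ^ 2 * 2 ^ r.2.1 ≤ 1) ∧
    (∀ z : ℂ, ‖z - 5‖ = 7 / 2 →
      ‖Zf z‖ ^ 5400 * ‖vev (nodeP atoms r.2.2) z‖ ^ 2 * 2 ^ r.2.1 ≤ 2 ^ 66888) := by
  have hP : (⟨2700 :: 2700 :: r.2.2, r.2.1, 0⟩ : Node) ∈ nodesP :=
    List.mem_map.2 ⟨r, hr, rfl⟩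
  have hC : (⟨2700 :: 2700 :: r.2.2, r.2.1, 66888⟩ : Node) ∈ nodesC :=
    List.mem_map.2 ⟨r, hr, rfl⟩
  constructor
  · intro z hz
    have hne : 25 - z ^ 2 ≠ 0 := ana_V_ne_S (ana_onPath_S hz)
    rw [← pow_zero (2 : ℝ)]
    rcases hz with ⟨u, h0, h1, rfl⟩ | ⟨u, h0, h1, rfl⟩
    · obtain ⟨z, hz⟩ : ∃ z : ℂ, z = (6 / 5 * u) * Complex.I := ⟨_, rfl⟩
      rw [← hz] at hne ⊢
      have hre : z.re = 0 := by rw [hz]; simp
      have him : z.im = 6 / 5 * u := by rw [hz]; simp
      have hU : ev U1 (1200 * u) = (1000000 : ℕ) * (z ^ 2).re := by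
        rw [pow_two, Complex.mul_re, hre, him]
        simp only [U1, ev]
        push_cast
        ring
      have hV : ev V1 (1200 * u) = (1000000 : ℕ) ^ 2 * (z ^ 2).im ^ 2 := by
        rw [pow_two z, Complex.mul_im, hre, him]
        simp only [V1, ev]
        push_cast
        ring
      have hZ : ev Z1 (1200 * u) = (1000000 : ℕ) * ‖z‖ ^ 2 := by
        rw [Complex.sq_norm, Complex.normSq_apply, hre, him]
        simp only [Z1, ev]
        push_cast
        ring
      have hs : ((1000000 : ℕ) : ℤ) = 100 * 10000 := by norm_num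
      have hps := nonneg_mkPs hs U1 V1 Z1 (1200 * u) z hU hV hZ atoms
      have hD : 0 ≤ ev (realP 10000 U1 V1 2500) (1200 * u) := by
        rw [ev_realP, hV]
        positivity
      rw [ps1_eq] at hps
      rw [D1_eq] at hD
      have key := all1 hP (t := 1200 * u) (by positivity) (by linarith) hps hD
      refine link (k := 10000) (s := 1000000) (by norm_num) hs U1 V1 Z1 (1200 * u) z hU hV hZ hne
        atoms r.2.2 r.2.1 0 1000000000000 (by norm_num) ?_
      rw [ps1_eq, D1_eq, cs1_eq]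
      exact key
    · obtain ⟨z, hz⟩ : ∃ z : ℂ, z = -u + (6 / 5 + 4 / 5 * u) * Complex.I := ⟨_, rfl⟩
      rw [← hz] at hne ⊢
      have hre : z.re = -u := by rw [hz]; simp
      have him : z.im = 6 / 5 + 4 / 5 * u := by rw [hz]; simp
      have hU : ev U2 (1000 * u) = (25000000 : ℕ) * (z ^ 2).re := by
        rw [pow_two, Complex.mul_re, hre, him]
        simp only [U2, ev]
        push_cast
        ring
      have hV : ev V2 (1000 * u) = (25000000 : ℕ) ^ 2 * (z ^ 2).im ^ 2 := by
        rw [pow_two z, Complex.mul_im, hre, him]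
        simp only [V2, ev]
        push_cast
        ring
      have hZ : ev Z2 (1000 * u) = (25000000 : ℕ) * ‖z‖ ^ 2 := by
        rw [Complex.sq_norm, Complex.normSq_apply, hre, him]
        simp only [Z2, ev]
        push_cast
        ring
      have hs : ((25000000 : ℕ) : ℤ) = 100 * 250000 := by norm_num
      have hps := nonneg_mkPs hs U2 V2 Z2 (1000 * u) z hU hV hZ atoms
      have hD : 0 ≤ ev (realP 250000 U2 V2 2500) (1000 * u) := by
        rw [ev_realP, hV]
        positivity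
      rw [ps2_eq] at hps
      rw [D2_eq] at hD
      have key := all2 hP (t := 1000 * u) (by positivity) (by linarith) hps hD
      refine link (k := 250000) (s := 25000000) (by norm_num) hs U2 V2 Z2 (1000 * u) z hU hV hZ hne
        atoms r.2.2 r.2.1 0 625000000000000 (by norm_num) ?_
      rw [ps2_eq, D2_eq, cs2_eq]
      exact key
  · intro z hz
    have hne : 25 - z ^ 2 ≠ 0 := ana_circ_ne hz
    have h1 : (z.re - 5) ^ 2 + z.im ^ 2 = 49 / 4 := by
      have h2 : ‖z - 5‖ ^ 2 = 49 / 4 := by rw [hz]; norm_num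
      rw [Complex.sq_norm, Complex.normSq_apply, Complex.sub_re, Complex.sub_im] at h2
      simp at h2
      linarith
    have h3 : 3 / 2 ≤ z.re := by nlinarith [sq_nonneg z.im, sq_nonneg (z.re - 5 + 7 / 2)]
    have h4 : z.re ≤ 17 / 2 := by nlinarith [sq_nonneg z.im, sq_nonneg (z.re - 5 - 7 / 2)]
    have hy : z.im ^ 2 = 49 / 4 - (z.re - 5) ^ 2 := by linarith
    have hU : ev UC (200 * z.re) = (20000 : ℕ) * (z ^ 2).re := by
      rw [pow_two z, Complex.mul_re, ← pow_two z.im, hy]
      simp only [UC, ev]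
      push_cast
      ring
    have hV : ev VC (200 * z.re) = (20000 : ℕ) ^ 2 * (z ^ 2).im ^ 2 := by
      have e1 : (z ^ 2).im ^ 2 = 4 * z.re ^ 2 * z.im ^ 2 := by
        rw [pow_two z, Complex.mul_im]
        ring
      rw [e1, hy]
      simp only [VC, ev]
      push_cast
      ring
    have hZ : ev ZC (200 * z.re) = (20000 : ℕ) * ‖z‖ ^ 2 := by
      rw [Complex.sq_norm, Complex.normSq_apply, ← pow_two, ← pow_two, hy]
      simp only [ZC, ev]
      push_cast
      ring
    have hs : ((20000 : ℕ) : ℤ) = 100 * 200 := by norm_num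
    have hps := nonneg_mkPs hs UC VC ZC (200 * z.re) z hU hV hZ atoms
    have hD : 0 ≤ ev (realP 200 UC VC 2500) (200 * z.re) := by
      rw [ev_realP, hV]
      positivity
    rw [psC_eq] at hps
    rw [DC_eq] at hD
    have key := allC hC (t := 200 * z.re) (by linarith) (by linarith) hps hD
    refine link (k := 200) (s := 20000) (by norm_num) hs UC VC ZC (200 * z.re) z hU hV hZ hne
      atoms r.2.2 r.2.1 66888 400000000 (by norm_num) ?_
    rw [psC_eq, DC_eq, csC_eq]
    exact key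

/-- every node is good -/
theorem good_raw (r : ℕ × ℕ × List ℕ) (hr : r ∈ raw) (hd : degN atoms r.2.2 = r.1) :
    Good r.1 r.2.1 (nodeP atoms r.2.2) :=
  ⟨(nodeP_monic atoms r.2.2).1, (nodeP_monic atoms r.2.2).2.trans hd, good_aux r hr⟩

private theorem deg_raw : ∀ r ∈ raw, degN atoms r.2.2 = r.1 := by decide +kernel

theorem good_mem {D b : ℕ} {es : List ℕ} (hr : (D, b, es) ∈ raw) :
    Good D b (nodeP atoms es) := good_raw _ hr (deg_raw _ hr)

/-- the list of the nodes up to degree `1800` -/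
def nodeList : List (ℕ × ℕ) := (raw.take 22).map fun r => (r.1, r.2.1)

theorem trap_nodeList : trap nodeList = 93678303 := by decide +kernel

theorem chain_nodes : Chain 0 26561 nodeList 1800 22231 := by
  have e : nodeList = [(0, 26561), (24, 26617), (72, 26685), (144, 26747), (216, 26789), (324, 26809),
    (450, 26798), (585, 26760), (720, 26696), (855, 26603), (990, 26497), (1089, 26412),
    (1188, 26315), (1242, 26261), (1296, 26206), (1350, 26148), (1404, 25741), (1458, 25300),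
    (1512, 24839), (1620, 23886), (1710, 23067), (1800, 22231)] := by decide +kernel
  rw [e]
  refine Chain.cons _ _ _ (good_mem (List.mem_of_getElem? (i := 0) rfl)) (D' := 24)
    (b' := 26617) (by norm_num) ?_
  refine Chain.cons _ _ _ (good_mem (List.mem_of_getElem? (i := 1) rfl)) (D' := 72)
    (b' := 26685) (by norm_num) ?_
  refine Chain.cons _ _ _ (good_mem (List.mem_of_getElem? (i := 2) rfl)) (D' := 144)
    (b' := 26747) (by norm_num) ?_
  refine Chain.cons _ _ _ (good_mem (List.mem_of_getElem? (i := 3) rfl)) (D' := 216)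
    (b' := 26789) (by norm_num) ?_
  refine Chain.cons _ _ _ (good_mem (List.mem_of_getElem? (i := 4) rfl)) (D' := 324)
    (b' := 26809) (by norm_num) ?_
  refine Chain.cons _ _ _ (good_mem (List.mem_of_getElem? (i := 5) rfl)) (D' := 450)
    (b' := 26798) (by norm_num) ?_
  refine Chain.cons _ _ _ (good_mem (List.mem_of_getElem? (i := 6) rfl)) (D' := 585)
    (b' := 26760) (by norm_num) ?_
  refine Chain.cons _ _ _ (good_mem (List.mem_of_getElem? (i := 7) rfl)) (D' := 720)
    (b' := 26696) (by norm_num) ?_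
  refine Chain.cons _ _ _ (good_mem (List.mem_of_getElem? (i := 8) rfl)) (D' := 855)
    (b' := 26603) (by norm_num) ?_
  refine Chain.cons _ _ _ (good_mem (List.mem_of_getElem? (i := 9) rfl)) (D' := 990)
    (b' := 26497) (by norm_num) ?_
  refine Chain.cons _ _ _ (good_mem (List.mem_of_getElem? (i := 10) rfl)) (D' := 1089)
    (b' := 26412) (by norm_num) ?_
  refine Chain.cons _ _ _ (good_mem (List.mem_of_getElem? (i := 11) rfl)) (D' := 1188)
    (b' := 26315) (by norm_num) ?_
  refine Chain.cons _ _ _ (good_mem (List.mem_of_getElem? (i := 12) rfl)) (D' := 1242)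
    (b' := 26261) (by norm_num) ?_
  refine Chain.cons _ _ _ (good_mem (List.mem_of_getElem? (i := 13) rfl)) (D' := 1296)
    (b' := 26206) (by norm_num) ?_
  refine Chain.cons _ _ _ (good_mem (List.mem_of_getElem? (i := 14) rfl)) (D' := 1350)
    (b' := 26148) (by norm_num) ?_
  refine Chain.cons _ _ _ (good_mem (List.mem_of_getElem? (i := 15) rfl)) (D' := 1404)
    (b' := 25741) (by norm_num) ?_
  refine Chain.cons _ _ _ (good_mem (List.mem_of_getElem? (i := 16) rfl)) (D' := 1458)
    (b' := 25300) (by norm_num) ?_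
  refine Chain.cons _ _ _ (good_mem (List.mem_of_getElem? (i := 17) rfl)) (D' := 1512)
    (b' := 24839) (by norm_num) ?_
  refine Chain.cons _ _ _ (good_mem (List.mem_of_getElem? (i := 18) rfl)) (D' := 1620)
    (b' := 23886) (by norm_num) ?_
  refine Chain.cons _ _ _ (good_mem (List.mem_of_getElem? (i := 19) rfl)) (D' := 1710)
    (b' := 23067) (by norm_num) ?_
  refine Chain.cons _ _ _ (good_mem (List.mem_of_getElem? (i := 20) rfl)) (D' := 1800)
    (b' := 22231) (by norm_num) ?_
  exact Chain.one _ _ _ (good_mem (List.mem_of_getElem? (i := 21) rfl))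

theorem good_extra : ∃ N : ℚ[X], Good 1802 22208 N :=
  ⟨_, good_mem (List.mem_of_getElem? (i := 22) rfl)⟩

end Pool.Agent.Lib.PiMuB
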