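import Pool.Agent.Lib.PiMu.Defs
import Pool.Agent.Lib.PiMu.Analysis
import Pool.Agent.Lib.PiMuB.Defs

/-!
# The upper bound for the determinant from a chain of node polynomials

Row `i` with `D_j n ≤ i < D_{j+1} n`, `δ = D_{j+1} - D_j`, `i = D_j n + δ β + ρ`: the polynomial
`N_j^(n-β) N_{j+1}^β (v - 25)^ρ`.
-/

set_option autoImplicit false

namespace Pool.Agent.Lib.PiMuB

open Polynomial Pool.Agent.Lib.PiMu

/-! ### rows -/

/-- a row polynomial of degree `i` with exponent `a` -/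
private def Row (C : ℝ) (n i a : ℕ) (P : ℚ[X]) : Prop :=
  P.Monic ∧ P.natDegree = i ∧
  (∀ z : ℂ, OnPath z → ‖Zf z‖ ^ (5400 * n) * ‖vev P z‖ ^ 2 * 2 ^ a ≤ C) ∧
  (∀ z : ℂ, ‖z - 5‖ = 7 / 2 →
    ‖Zf z‖ ^ (5400 * n) * ‖vev P z‖ ^ 2 * 2 ^ a ≤ C * 2 ^ (66888 * n))

private theorem up_path_norm {z : ℂ} (hz : OnPath z) : ‖z‖ ^ 2 ≤ 73 := by
  rw [← Complex.normSq_eq_norm_sq, Complex.normSq_apply]
  rcases hz with ⟨u, h0, h1, rfl⟩ | ⟨u, h0, h1, rfl⟩
  · simp
    nlinarith
  · simp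
    nlinarith

private theorem up_circ_norm {z : ℂ} (hz : ‖z - 5‖ = 7 / 2) : ‖z‖ ^ 2 ≤ 73 := by
  have h1 : ‖z‖ ≤ ‖z - 5‖ + ‖(5 : ℂ)‖ := by
    have := norm_add_le (z - 5) 5
    rwa [sub_add_cancel] at this
  have h2 : ‖(5 : ℂ)‖ = 5 := by simp
  rw [hz, h2] at h1
  have h0 := norm_nonneg z
  nlinarith

private theorem vev_row (N N' : ℚ[X]) (k m ρ : ℕ) (z : ℂ) :
    ‖vev (N ^ k * N' ^ m * (X - C 25) ^ ρ) z‖ ^ 2 =
      (‖vev N z‖ ^ 2) ^ k * (‖vev N' z‖ ^ 2) ^ m * (‖z‖ ^ 2) ^ (2 * ρ) := by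
  have h1 : vev (N ^ k * N' ^ m * (X - C 25) ^ ρ) z =
      vev N z ^ k * vev N' z ^ m * (-z ^ 2) ^ ρ := by
    simp [vev]
  rw [h1, norm_mul, norm_mul, norm_pow, norm_pow, norm_pow, norm_neg, norm_pow]
  ring

/-- the constant of the powers of `w` -/
private noncomputable def CC : ℝ := 73 ^ 3604

private theorem CC_pos : 0 < CC := pow_pos (by norm_num) _

private theorem CC_le {W : ℝ} {ρ : ℕ} (hW : 0 ≤ W) (hW' : W ≤ 73) (hρ : ρ ≤ 1802) :
    W ^ (2 * ρ) ≤ CC :=
  (pow_le_pow_left₀ hW hW' _).trans (pow_le_pow_right₀ (by norm_num) (by omega))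

private theorem row_le {Q A B W T : ℝ} {b b' k m ρ : ℕ} (hQ : 0 ≤ Q) (hA : 0 ≤ A) (hB : 0 ≤ B)
    (hW : 0 ≤ W) (hW' : W ≤ 73) (hρ : ρ ≤ 1802) (h1 : Q * A * 2 ^ b ≤ T)
    (h2 : Q * B * 2 ^ b' ≤ T) :
    Q ^ (k + m) * (A ^ k * B ^ m * W ^ (2 * ρ)) * 2 ^ (b * k + b' * m) ≤
      CC * T ^ (k + m) := by
  have e : Q ^ (k + m) * (A ^ k * B ^ m * W ^ (2 * ρ)) * 2 ^ (b * k + b' * m) =
      W ^ (2 * ρ) * ((Q * A * 2 ^ b) ^ k * (Q * B * 2 ^ b') ^ m) := by
    rw [pow_add, pow_add, mul_pow, mul_pow, mul_pow, mul_pow, ← pow_mul, ← pow_mul]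
    ring
  rw [e, pow_add]
  have h3 := CC_le hW hW' hρ
  have h4 : (Q * A * 2 ^ b) ^ k ≤ T ^ k := pow_le_pow_left₀ (by positivity) h1 _
  have h5 : (Q * B * 2 ^ b') ^ m ≤ T ^ m := pow_le_pow_left₀ (by positivity) h2 _
  have hT : 0 ≤ T := le_trans (by positivity) h1
  exact mul_le_mul h3 (mul_le_mul h4 h5 (by positivity) (by positivity)) (by positivity)
    CC_pos.le

private theorem interp {D b D' b' : ℕ} {N N' : ℚ[X]} (h : Good D b N) (h' : Good D' b' N')
    (k m ρ : ℕ) (hρ : ρ ≤ 1802) :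
    Row CC (k + m) (D * k + D' * m + ρ) (b * k + b' * m)
      (N ^ k * N' ^ m * (X - C 25) ^ ρ) := by
  obtain ⟨hm, hd, hp, hc⟩ := h
  obtain ⟨hm', hd', hp', hc'⟩ := h'
  refine ⟨((hm.pow k).mul (hm'.pow m)).mul ((monic_X_sub_C 25).pow ρ), ?_, fun z hz => ?_,
    fun z hz => ?_⟩
  · rw [((hm.pow k).mul (hm'.pow m)).natDegree_mul ((monic_X_sub_C 25).pow ρ),
      (hm.pow k).natDegree_mul (hm'.pow m), hm.natDegree_pow, hm'.natDegree_pow,
      (monic_X_sub_C (25 : ℚ)).natDegree_pow, natDegree_X_sub_C, hd, hd']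
    ring
  · rw [vev_row, pow_mul]
    refine (row_le (pow_nonneg (norm_nonneg _) _) (sq_nonneg _) (sq_nonneg _) (sq_nonneg _)
      (up_path_norm hz) hρ (hp z hz) (hp' z hz)).trans ?_
    rw [one_pow, mul_one]
  · rw [vev_row, pow_mul]
    refine (row_le (pow_nonneg (norm_nonneg _) _) (sq_nonneg _) (sq_nonneg _) (sq_nonneg _)
      (up_circ_norm hz) hρ (hc z hz) (hc' z hz)).trans (le_of_eq ?_)
    rw [← pow_mul]

/-! ### the chain -/

private theorem chain_head {D b : ℕ} {l : List (ℕ × ℕ)} {E e : ℕ} (hc : Chain D b l E e) :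
    ∃ N : ℚ[X], Good D b N := by
  cases hc with
  | one _ _ N h => exact ⟨N, h⟩
  | cons _ _ N h _ _ => exact ⟨N, h⟩

private theorem chain_last {D b : ℕ} {l : List (ℕ × ℕ)} {E e : ℕ} (hc : Chain D b l E e) :
    ∃ N : ℚ[X], Good E e N := by
  induction hc with
  | one _ _ N h => exact ⟨N, h⟩
  | cons _ _ N h _ _ ih => exact ih

private theorem chain_le {D b : ℕ} {l : List (ℕ × ℕ)} {E e : ℕ} (hc : Chain D b l E e) :
    D ≤ E := by
  induction hc with
  | one _ _ N h => exact le_rfl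
  | cons _ _ N h hD _ ih => omega

private theorem trap_cons {D b D' b' : ℕ} {l : List (ℕ × ℕ)} {E e : ℕ}
    (hc : Chain D' b' l E e) : trap ((D, b) :: l) = (D' - D) * (b + b') + trap l := by
  cases hc with
  | one _ _ N h => rfl
  | cons _ _ N h _ _ => rfl

private theorem sum_div (δ : ℕ) (hδ : 0 < δ) (f : ℕ → ℕ) (n : ℕ) :
    ∑ i ∈ Finset.range (δ * n), f (i / δ) = δ * ∑ β ∈ Finset.range n, f β := by
  induction n with
  | zero => simp
  | succ n ih =>
    rw [Nat.mul_succ, Finset.sum_range_add, ih, Finset.sum_range_succ, mul_add]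
    congr 1
    have : ∀ x ∈ Finset.range δ, f ((δ * n + x) / δ) = f n := by
      intro x hx
      rw [Nat.mul_add_div hδ, Nat.div_eq_of_lt (Finset.mem_range.1 hx), add_zero]
    rw [Finset.sum_congr rfl this]
    simp

private theorem sum_block (b b' n : ℕ) :
    (b + b') * n ^ 2 ≤ 2 * ∑ β ∈ Finset.range n, (b * (n - β) + b' * β) + b' * n := by
  have h1 : ∑ β ∈ Finset.range n, (n - β) = ∑ β ∈ Finset.range n, (β + 1) := by
    have := Finset.sum_range_reflect (fun β => β + 1) n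
    rw [← this]
    refine Finset.sum_congr rfl fun β hβ => ?_
    have := Finset.mem_range.1 hβ
    omega
  have h2 : (∑ β ∈ Finset.range n, β) * 2 = n * (n - 1) := Finset.sum_range_id_mul_two n
  rw [Finset.sum_add_distrib, ← Finset.mul_sum, ← Finset.mul_sum, h1, Finset.sum_add_distrib]
  simp only [Finset.sum_const, Finset.card_range, smul_eq_mul, mul_one]
  obtain ⟨s, hs⟩ : ∃ s, s = ∑ β ∈ Finset.range n, β := ⟨_, rfl⟩
  rw [← hs] at h2 ⊢
  rcases Nat.eq_zero_or_pos n with h0 | h0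
  · subst h0
    simp
  · obtain ⟨m, rfl⟩ : ∃ m, n = m + 1 := ⟨n - 1, by omega⟩
    simp only [Nat.add_sub_cancel] at h2
    nlinarith

private theorem rows {D b : ℕ} {l : List (ℕ × ℕ)} {E e : ℕ} (hc : Chain D b l E e)
    (hE : E ≤ 1802) : ∃ c : ℕ, ∀ n : ℕ, ∃ a : ℕ → ℕ,
      (∀ i < (E - D) * n, ∃ P : ℚ[X], Row CC n (D * n + i) (a i) P) ∧
      trap l * n ^ 2 ≤ 2 * ∑ i ∈ Finset.range ((E - D) * n), a i + c * n := by
  induction hc with
  | one D b N h =>
    refine ⟨0, fun n => ⟨fun _ => 0, fun i hi => ?_, ?_⟩⟩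
    · simp at hi
    · simp [trap]
  | @cons D b N h D' b' E e l hD hc ih =>
    obtain ⟨c, hcn⟩ := ih hE
    obtain ⟨N', h'⟩ := chain_head hc
    have hle := chain_le hc
    obtain ⟨δ, hδ⟩ : ∃ δ, δ = D' - D := ⟨_, rfl⟩
    have hδ0 : 0 < δ := by omega
    have hED : E - D = δ + (E - D') := by omega
    refine ⟨δ * b' + c, fun n => ?_⟩
    obtain ⟨a, ha1, ha2⟩ := hcn n
    refine ⟨fun i => if i < δ * n then b * (n - i / δ) + b' * (i / δ) else a (i - δ * n), ?_, ?_⟩
    · intro i hi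
      simp only
      split_ifs with h1
      · have h2 : i / δ < n := (Nat.div_lt_iff_lt_mul hδ0).2 (by rwa [mul_comm] at h1)
        have h3 : i % δ < δ := Nat.mod_lt _ hδ0
        have h4 := Nat.div_add_mod i δ
        have key := interp h h' (n - i / δ) (i / δ) (i % δ) (by omega)
        have e1 : n - i / δ + i / δ = n := by omega
        have e2 : D * (n - i / δ) + D' * (i / δ) + i % δ = D * n + i := by
          have e3 : D' = D + δ := by omega
          have e4 : D * (n - i / δ) + D * (i / δ) = D * n := by rw [← mul_add, e1]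
          rw [e3, add_mul]
          omega
        rw [e1, e2] at key
        exact ⟨_, key⟩
      · have h2 : i - δ * n < (E - D') * n := by
          rw [hED, add_mul] at hi
          omega
        obtain ⟨P, hP⟩ := ha1 _ h2
        refine ⟨P, ?_⟩
        have e1 : D' * n + (i - δ * n) = D * n + i := by
          have e3 : D' = D + δ := by omega
          rw [e3, add_mul]
          omega
        rwa [e1] at hP
    · have e5 : (δ + (E - D')) * n = δ * n + (E - D') * n := add_mul _ _ _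
      rw [trap_cons hc, ← hδ, hED, e5, Finset.sum_range_add]
      have s1 : ∑ i ∈ Finset.range (δ * n),
          (if i < δ * n then b * (n - i / δ) + b' * (i / δ) else a (i - δ * n)) =
          δ * ∑ β ∈ Finset.range n, (b * (n - β) + b' * β) := by
        rw [← sum_div δ hδ0 (fun β => b * (n - β) + b' * β) n]
        refine Finset.sum_congr rfl fun i hi => ?_
        rw [if_pos (Finset.mem_range.1 hi)]
      have s2 : ∑ i ∈ Finset.range ((E - D') * n),
          (if δ * n + i < δ * n then b * (n - (δ * n + i) / δ) + b' * ((δ * n + i) / δ)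
            else a (δ * n + i - δ * n)) = ∑ i ∈ Finset.range ((E - D') * n), a i := by
        refine Finset.sum_congr rfl fun i hi => ?_
        rw [if_neg (by omega), Nat.add_sub_cancel_left]
      rw [s1, s2]
      have s3 := Nat.mul_le_mul_left δ (sum_block b b' n)
      obtain ⟨s, hs⟩ : ∃ s, s = ∑ β ∈ Finset.range n, (b * (n - β) + b' * β) := ⟨_, rfl⟩
      rw [← hs] at s3 ⊢
      nlinarith

/-! ### the entries -/

private theorem up_eval_wp (z : ℂ) : (wp.map (algebraMap ℚ ℂ)).eval (25 - z ^ 2) = z ^ 2 := by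
  unfold wp
  simp

private theorem up_eval_qp (z : ℂ) : (qp.map (algebraMap ℚ ℂ)).eval (25 - z ^ 2)
    = (z ^ 2) ^ 2 + 6 * z ^ 2 + 25 := by
  unfold qp
  simp
  ring

private theorem up_norm_W (n : ℕ) (P Q : ℚ[X]) {z : ℂ} (hz : 25 - z ^ 2 ≠ 0) :
    ‖((Wp n * P * Q).map (algebraMap ℚ ℂ)).eval (25 - z ^ 2)‖
      = ‖Zf z‖ ^ (90 * n) * ‖vev P z‖ * ‖vev Q z‖ * ‖25 - z ^ 2‖ ^ (180 * n) := by
  have hZ : z * ((z ^ 2) ^ 2 + 6 * z ^ 2 + 25) = Zf z * (25 - z ^ 2) ^ 2 := by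
    unfold Zf
    field_simp
  have hW : ((Wp n).map (algebraMap ℚ ℂ)).eval (25 - z ^ 2)
      = Zf z ^ (90 * n) * (25 - z ^ 2) ^ (180 * n) := by
    unfold Wp
    rw [Polynomial.map_mul, Polynomial.map_pow, Polynomial.map_pow, eval_mul, eval_pow, eval_pow,
      up_eval_wp, up_eval_qp, ← pow_mul, show 2 * (45 * n) = 90 * n by ring, ← mul_pow, hZ,
      mul_pow, ← pow_mul, show 2 * (90 * n) = 180 * n by ring]
  rw [Polynomial.map_mul, Polynomial.map_mul, eval_mul, eval_mul, hW]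
  simp only [norm_mul, norm_pow, vev]
  ring

private theorem sq_bound {Z A T C : ℝ} {n a : ℕ}
    (h : Z ^ (5400 * n) * A ^ 2 * 2 ^ a ≤ C * T ^ 2) (hT : 0 ≤ T) :
    Z ^ (2700 * n) * A ≤ T * Real.sqrt (C / 2 ^ a) := by
  have h1 : (Z ^ (2700 * n) * A) ^ 2 ≤ T ^ 2 * (C / 2 ^ a) := by
    rw [← mul_div_assoc, le_div_iff₀ (by positivity), mul_pow, ← pow_mul,
      show 2700 * n * 2 = 5400 * n by ring]
    linarith
  have h2 : T * Real.sqrt (C / 2 ^ a) = Real.sqrt (T ^ 2 * (C / 2 ^ a)) := by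
    rw [Real.sqrt_mul (sq_nonneg T), Real.sqrt_sq hT]
  rw [h2]
  exact Real.le_sqrt_of_sq_le h1

private theorem entry {x y : ℤ} {n i j a a' : ℕ} {P Q : ℚ[X]} (hx : 1 ≤ x)
    (hπ : |Real.pi - (y : ℝ) / x| ≤ (1 / 2) ^ (66888 * n)) (hP : Row CC n i a P)
    (hQ : Row CC n j a' Q) :
    |(lam x y (180 * (60 * n)) (Wp (60 * n) * P * Q) : ℝ)|
      ≤ 3 * x * (Real.sqrt (CC / 2 ^ a) * Real.sqrt (CC / 2 ^ a')) := by
  have hx0 : (0 : ℝ) < x := by exact_mod_cast (by omega : (0 : ℤ) < x)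
  obtain ⟨g, hg⟩ : ∃ g, g = Real.sqrt (CC / 2 ^ a) := ⟨_, rfl⟩
  obtain ⟨g', hg'⟩ : ∃ g', g' = Real.sqrt (CC / 2 ^ a') := ⟨_, rfl⟩
  have hg0 : 0 ≤ g := hg ▸ Real.sqrt_nonneg _
  have hg0' : 0 ≤ g' := hg' ▸ Real.sqrt_nonneg _
  obtain ⟨T, hT⟩ : ∃ T : ℝ, T = 2 ^ (33444 * n) := ⟨_, rfl⟩
  have hT0 : 0 < T := by rw [hT]; positivity
  have hT2 : T ^ 2 = 2 ^ (66888 * n) := by
    rw [hT, ← pow_mul, show 33444 * n * 2 = 66888 * n by ring]
  have hT3 : (1 / 2 : ℝ) ^ (66888 * n) * T ^ 2 = 1 := by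
    rw [hT2, ← mul_pow]
    norm_num
  have key := lam_bound x y (180 * (60 * n)) (Wp (60 * n) * P * Q) (g * g') (T ^ 2 * (g * g'))
    (by positivity) (by positivity) ?_ ?_
  · rw [← hg, ← hg']
    have h1 : |(y : ℝ) - Real.pi * x| ≤ x * (1 / 2) ^ (66888 * n) := by
      have : (y : ℝ) - Real.pi * x = -(x * (Real.pi - (y : ℝ) / x)) := by
        field_simp
        ring
      rw [this, abs_neg, abs_mul, abs_of_pos hx0]
      exact mul_le_mul_of_nonneg_left hπ hx0.le
    have h2 : |(x : ℝ)| = x := abs_of_pos hx0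
    rw [h2] at key
    refine key.trans ?_
    have h4 : |(y : ℝ) - Real.pi * x| * (T ^ 2 * (g * g')) ≤
        x * (1 / 2) ^ (66888 * n) * (T ^ 2 * (g * g')) :=
      mul_le_mul_of_nonneg_right h1 (by positivity)
    have h5 : x * (1 / 2 : ℝ) ^ (66888 * n) * (T ^ 2 * (g * g')) = x * (g * g') := by
      linear_combination (x * (g * g') : ℝ) * hT3
    rw [h5] at h4
    linarith
  · intro z hz
    rw [up_norm_W (60 * n) P Q (ana_V_ne_S (ana_onPath_S hz))]
    refine mul_le_mul_of_nonneg_right ?_ (by positivity)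
    have b1 := sq_bound (T := 1) (C := CC) (n := n) (a := a) (Z := ‖Zf z‖) (A := ‖vev P z‖)
      (by rw [one_pow, mul_one]; exact hP.2.2.1 z hz) zero_le_one
    have b2 := sq_bound (T := 1) (C := CC) (n := n) (a := a') (Z := ‖Zf z‖) (A := ‖vev Q z‖)
      (by rw [one_pow, mul_one]; exact hQ.2.2.1 z hz) zero_le_one
    rw [one_mul, ← hg] at b1
    rw [one_mul, ← hg'] at b2
    have e : ‖Zf z‖ ^ (90 * (60 * n)) * ‖vev P z‖ * ‖vev Q z‖ =
        (‖Zf z‖ ^ (2700 * n) * ‖vev P z‖) * (‖Zf z‖ ^ (2700 * n) * ‖vev Q z‖) := by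
      rw [show 90 * (60 * n) = 2700 * n + 2700 * n by ring, pow_add]
      ring
    rw [e]
    exact mul_le_mul b1 b2 (mul_nonneg (pow_nonneg (norm_nonneg _) _) (norm_nonneg _)) hg0
  · intro z hz
    rw [up_norm_W (60 * n) P Q (ana_circ_ne hz)]
    refine mul_le_mul_of_nonneg_right ?_ (by positivity)
    have b1 := sq_bound (T := T) (C := CC) (n := n) (a := a) (Z := ‖Zf z‖) (A := ‖vev P z‖)
      (by rw [hT2]; exact hP.2.2.2 z hz) hT0.le
    have b2 := sq_bound (T := T) (C := CC) (n := n) (a := a') (Z := ‖Zf z‖) (A := ‖vev Q z‖)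
      (by rw [hT2]; exact hQ.2.2.2 z hz) hT0.le
    rw [← hg] at b1
    rw [← hg'] at b2
    have e : ‖Zf z‖ ^ (90 * (60 * n)) * ‖vev P z‖ * ‖vev Q z‖ =
        (‖Zf z‖ ^ (2700 * n) * ‖vev P z‖) * (‖Zf z‖ ^ (2700 * n) * ‖vev Q z‖) := by
      rw [show 90 * (60 * n) = 2700 * n + 2700 * n by ring, pow_add]
      ring
    have e' : T ^ 2 * (g * g') = (T * g) * (T * g') := by ring
    rw [e, e']
    exact mul_le_mul b1 b2 (mul_nonneg (pow_nonneg (norm_nonneg _) _) (norm_nonneg _))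
      (mul_nonneg hT0.le hg0)

/-! ### the determinant -/

private theorem up_basis {K : ℕ} (l : ℚ[X] →ₗ[ℚ] ℚ) (g : ℕ → ℚ[X]) (hm : ∀ i, (g i).Monic)
    (hd : ∀ i, (g i).natDegree = i) :
    (Matrix.of fun i j : Fin K => l (g i * g j)).det =
      (Matrix.of fun i j : Fin K => l (X ^ ((i : ℕ) + (j : ℕ)))).det := by
  have hexp : ∀ i : Fin K, g i = ∑ k : Fin K, C ((g i).coeff k) * X ^ (k : ℕ) := by
    intro i
    conv_lhs => rw [(g i).as_sum_range' K (by rw [hd]; exact i.2)]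
    rw [Finset.sum_range]
    refine Finset.sum_congr rfl fun k _ => ?_
    rw [C_mul_X_pow_eq_monomial]
  have h : (Matrix.of fun i j : Fin K => l (g i * g j)) =
      (Matrix.of fun i k : Fin K => (g i).coeff k) *
        (Matrix.of fun i j : Fin K => l (X ^ ((i : ℕ) + (j : ℕ)))) *
        (Matrix.of fun i k : Fin K => (g i).coeff k).transpose := by
    ext i j
    rw [Matrix.mul_apply]
    simp only [Matrix.mul_apply, Matrix.of_apply, Matrix.transpose_apply]
    conv_lhs => rw [hexp i, hexp j, Finset.mul_sum, map_sum]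
    refine Finset.sum_congr rfl fun m _ => ?_
    rw [Finset.sum_mul, Finset.sum_mul, map_sum]
    refine Finset.sum_congr rfl fun k _ => ?_
    have : C ((g i).coeff k) * X ^ (k : ℕ) * (C ((g j).coeff m) * X ^ (m : ℕ))
        = C ((g i).coeff k * (g j).coeff m) * X ^ ((k : ℕ) + (m : ℕ)) := by
      rw [C_mul, pow_add]
      ring
    rw [this, ← smul_eq_C_mul, map_smul, smul_eq_mul]
    ring
  have h2 : (Matrix.of fun i k : Fin K => (g i).coeff k).det = 1 := by
    rw [Matrix.det_of_isLowerTriangular]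
    · refine Finset.prod_eq_one fun i _ => ?_
      rw [Matrix.of_apply]
      have := hm i
      rw [Monic, leadingCoeff, hd] at this
      exact this
    · intro i j hij
      rw [Matrix.of_apply]
      refine coeff_eq_zero_of_natDegree_lt ?_
      rw [hd]
      exact hij
  rw [h, Matrix.det_mul, Matrix.det_mul, Matrix.det_transpose, h2, one_mul, mul_one]

private theorem up_det_le {K : ℕ} (M : Matrix (Fin K) (Fin K) ℝ) (b : Fin K → ℝ)
    (h : ∀ i j, |M i j| ≤ b i * b j) :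
    |M.det| ≤ (K.factorial : ℝ) * ∏ i, (b i * b i) := by
  rw [Matrix.det_apply]
  refine (Finset.abs_sum_le_sum_abs _ _).trans ?_
  have h1 : ∀ σ ∈ (Finset.univ : Finset (Equiv.Perm (Fin K))),
      |Equiv.Perm.sign σ • ∏ i, M (σ i) i| ≤ ∏ i, (b i * b i) := by
    intro σ _
    have h2 : |Equiv.Perm.sign σ • ∏ i, M (σ i) i| = ∏ i, |M (σ i) i| := by
      rw [← Finset.abs_prod]
      rcases Int.units_eq_one_or (Equiv.Perm.sign σ) with h | h
      · rw [h, one_smul]
      · rw [h, Units.smul_def, Units.val_neg, Units.val_one, neg_smul, one_smul, abs_neg]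
    rw [h2]
    refine (Finset.prod_le_prod (fun i _ => abs_nonneg _) (fun i _ => h (σ i) i)).trans ?_
    rw [Finset.prod_mul_distrib, Finset.prod_mul_distrib, Equiv.prod_comp σ b]
  refine (Finset.sum_le_sum h1).trans (le_of_eq ?_)
  rw [Finset.sum_const, Finset.card_univ, Fintype.card_perm, Fintype.card_fin, nsmul_eq_mul]

private theorem up_log_fact (K : ℕ) : Real.log (K.factorial : ℝ) ≤ K * Real.log K := by
  rw [← Real.log_pow]
  refine Real.log_le_log (by exact_mod_cast K.factorial_pos) ?_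
  exact_mod_cast Nat.factorial_le_pow K

/-- all rows of the matrix -/
private theorem all_rows {b0 e : ℕ} {l : List (ℕ × ℕ)} (hc : Chain 0 b0 l 1800 e) :
    ∃ c : ℕ, ∀ n κ : ℕ, κ ≤ 2 → ∃ (a : ℕ → ℕ) (g : ℕ → ℚ[X]),
      (∀ i < 1800 * n + κ, Row CC n i (a i) (g i)) ∧ (∀ i, (g i).Monic) ∧
      (∀ i, (g i).natDegree = i) ∧
      trap l * n ^ 2 ≤ 2 * ∑ i ∈ Finset.range (1800 * n + κ), a i + c * n := by
  obtain ⟨c, hcn⟩ := rows hc (by norm_num)
  obtain ⟨N, hN⟩ := chain_last hc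
  refine ⟨c, fun n κ hκ => ?_⟩
  obtain ⟨a, ha1, ha2⟩ := hcn n
  simp only [Nat.sub_zero, Nat.zero_mul, Nat.zero_add] at ha1 ha2
  have hex : ∀ i, ∃ (P : ℚ[X]), P.Monic ∧ P.natDegree = i ∧
      (i < 1800 * n + κ → Row CC n i (if i < 1800 * n then a i else e * n) P) := by
    intro i
    by_cases h1 : i < 1800 * n
    · obtain ⟨P, hP⟩ := ha1 i h1
      exact ⟨P, hP.1, hP.2.1, fun _ => by rw [if_pos h1]; exact hP⟩
    · by_cases h2 : i < 1800 * n + κ
      · have key := interp hN hN n 0 (i - 1800 * n) (by omega)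
        have e1 : 1800 * n + 1800 * 0 + (i - 1800 * n) = i := by omega
        rw [e1, Nat.add_zero, Nat.mul_zero, Nat.add_zero] at key
        exact ⟨_, key.1, key.2.1, fun _ => by rw [if_neg h1]; exact key⟩
      · exact ⟨X ^ i, monic_X_pow i, natDegree_X_pow i, fun h => absurd h h2⟩
  choose g hg1 hg2 hg3 using hex
  refine ⟨_, g, fun i hi => hg3 i hi, hg1, hg2, ?_⟩
  rw [Finset.sum_range_add]
  have s1 : ∑ i ∈ Finset.range (1800 * n), (if i < 1800 * n then a i else e * n) =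
      ∑ i ∈ Finset.range (1800 * n), a i :=
    Finset.sum_congr rfl fun i hi => if_pos (Finset.mem_range.1 hi)
  rw [s1]
  refine ha2.trans ?_
  have := Nat.zero_le (∑ x ∈ Finset.range κ, if 1800 * n + x < 1800 * n then a (1800 * n + x)
    else e * n)
  omega

theorem log_det_upper2 {b0 e : ℕ} {l : List (ℕ × ℕ)} (hc : Chain 0 b0 l 1800 e)
    (ε : ℝ) (hε : 0 < ε) : ∃ n0 : ℕ, ∀ n ≥ n0, ∀ x y : ℤ, 1 ≤ x → ∀ κ ≤ 2,
    |Real.pi - (y : ℝ) / x| ≤ (1 / 2) ^ (66888 * n) →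
    (Mat x y (60 * n) (1800 * n + κ)).det ≠ 0 →
    Real.log |((Mat x y (60 * n) (1800 * n + κ)).det : ℝ)| ≤
      (1800 * n + κ) * Real.log x + (-(Real.log 2 / 2 * trap l) + ε) * n ^ 2 := by
  obtain ⟨c, hall⟩ := all_rows hc
  set H : ℝ := 3604 / ε with hH
  have hH0 : 0 < H := by positivity
  have hCC := CC_pos
  set D : ℝ := |Real.log 1802| + |Real.log (3 * CC)| + |Real.log H| with hD
  have hD0 : 0 ≤ D := by positivity
  obtain ⟨n1, hn1⟩ := exists_nat_ge (2 * (1802 * D + c) / ε)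
  refine ⟨n1 + 1, fun n hn x y hx κ hκ hπ hne => ?_⟩
  have hnpos : (1 : ℝ) ≤ n := by exact_mod_cast (by omega : 1 ≤ n)
  have hnD : 2 * (1802 * D + c) / ε ≤ n := hn1.trans (by exact_mod_cast (by omega : n1 ≤ n))
  have hx0 : (0 : ℝ) < x := by exact_mod_cast (by omega : (0 : ℤ) < x)
  obtain ⟨a, g, hrow, hg1, hg2, hsum⟩ := hall n κ hκ
  obtain ⟨K, hK⟩ : ∃ K, K = 1800 * n + κ := ⟨_, rfl⟩
  rw [← hK] at hrow hsum hne ⊢
  have hKn : (K : ℝ) ≤ 1802 * n := by
    have : K ≤ 1802 * n := by omega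
    exact_mod_cast this
  have hK0 : (0 : ℝ) < K := by
    have : 0 < K := by omega
    exact_mod_cast this
  have hdet : (Mat x y (60 * n) K).det = (Matrix.of fun i j : Fin K =>
      lam x y (180 * (60 * n)) (Wp (60 * n) * g i * g j)).det := by
    have h := up_basis (K := K) ((lam x y (180 * (60 * n))).comp (LinearMap.mulLeft ℚ (Wp (60 * n))))
      g hg1 hg2
    have e1 : (Matrix.of fun i j : Fin K => ((lam x y (180 * (60 * n))).comp
        (LinearMap.mulLeft ℚ (Wp (60 * n)))) (X ^ ((i : ℕ) + (j : ℕ)))) = Mat x y (60 * n) K := rfl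
    have e2 : (Matrix.of fun i j : Fin K => ((lam x y (180 * (60 * n))).comp
        (LinearMap.mulLeft ℚ (Wp (60 * n)))) (g i * g j))
        = (Matrix.of fun i j : Fin K => lam x y (180 * (60 * n)) (Wp (60 * n) * g i * g j)) := by
      ext i j
      simp only [Matrix.of_apply, LinearMap.comp_apply, LinearMap.mulLeft_apply, mul_assoc]
    rw [e1, e2] at h
    exact h.symm
  set M : Matrix (Fin K) (Fin K) ℝ := (Rat.castHom ℝ).mapMatrix (Matrix.of fun i j : Fin K =>
    lam x y (180 * (60 * n)) (Wp (60 * n) * g i * g j)) with hM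
  have hdetR : ((Mat x y (60 * n) K).det : ℝ) = M.det := by
    rw [hM, ← RingHom.map_det, ← hdet]
    rfl
  set b : Fin K → ℝ := fun i => Real.sqrt (3 * x) * Real.sqrt (CC / 2 ^ a i) with hb
  have h3x : Real.sqrt (3 * x) * Real.sqrt (3 * x) = 3 * x := Real.mul_self_sqrt (by positivity)
  have hbb : ∀ i j : Fin K, b i * b j =
      3 * x * (Real.sqrt (CC / 2 ^ a i) * Real.sqrt (CC / 2 ^ a j)) := by
    intro i j
    rw [hb]
    simp only
    linear_combination (Real.sqrt (CC / 2 ^ a i) * Real.sqrt (CC / 2 ^ a j)) * h3x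
  have hent : ∀ i j, |M i j| ≤ b i * b j := by
    intro i j
    have h1 := entry (x := x) (y := y) (n := n) hx hπ (hrow i i.2) (hrow j j.2)
    have h2 : M i j = (lam x y (180 * (60 * n)) (Wp (60 * n) * g i * g j) : ℝ) := rfl
    rw [h2, hbb]
    exact h1
  have h1 := up_det_le M b hent
  rw [← hdetR] at h1
  have h2 : ∏ i, (b i * b i) = (3 * x * CC) ^ K / 2 ^ (∑ i ∈ Finset.range K, a i) := by
    rw [Finset.sum_range, ← Finset.prod_pow_eq_pow_sum]
    have h3 : ∀ i ∈ (Finset.univ : Finset (Fin K)), b i * b i = 3 * x * CC / 2 ^ a i := by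
      intro i _
      rw [hbb, Real.mul_self_sqrt (by positivity)]
      ring
    rw [Finset.prod_congr rfl h3, Finset.prod_div_distrib, Finset.prod_const, Finset.card_univ,
      Fintype.card_fin]
  have hdpos : 0 < |((Mat x y (60 * n) K).det : ℝ)| := abs_pos.mpr (by exact_mod_cast hne)
  have h4 := Real.log_le_log hdpos h1
  have hfac : (0 : ℝ) < (K.factorial : ℝ) := by exact_mod_cast K.factorial_pos
  rw [h2, Real.log_mul hfac.ne' (by positivity), Real.log_div (by positivity) (by positivity),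
    Real.log_pow, Real.log_pow, show 3 * (x : ℝ) * CC = x * (3 * CC) by ring,
    Real.log_mul hx0.ne' (by positivity)] at h4
  have h5 := up_log_fact K
  have hsumR : (trap l : ℝ) * n ^ 2 ≤ 2 * ((∑ i ∈ Finset.range K, a i : ℕ) : ℝ) + c * n := by
    exact_mod_cast hsum
  obtain ⟨s, hs⟩ : ∃ s : ℝ, s = ((∑ i ∈ Finset.range K, a i : ℕ) : ℝ) := ⟨_, rfl⟩
  rw [← hs] at h4 hsumR
  have hl2 : 0 < Real.log 2 := Real.log_pos (by norm_num)
  have hl2' : Real.log 2 ≤ 1 := by
    have := Real.log_two_lt_d9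
    linarith
  have h6 : Real.log 2 / 2 * (trap l * n ^ 2) ≤ Real.log 2 * s + c * n := by
    have h7 := mul_le_mul_of_nonneg_left hsumR (by positivity : 0 ≤ Real.log 2 / 2)
    have h8 : Real.log 2 / 2 * (c * n) ≤ c * n := by
      have : 0 ≤ (c : ℝ) * n := by positivity
      nlinarith
    linarith
  have h7 : Real.log K ≤ |Real.log 1802| + (n / H + |Real.log H|) := by
    have h8 : Real.log K ≤ Real.log (1802 * n) := Real.log_le_log hK0 hKn
    rw [Real.log_mul (by norm_num) (by positivity)] at h8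
    have h9 : Real.log (n : ℝ) = Real.log (n / H) + Real.log H := by
      rw [← Real.log_mul (by positivity) hH0.ne']
      congr 1
      field_simp
    have h10 : Real.log ((n : ℝ) / H) ≤ n / H - 1 :=
      Real.log_le_sub_one_of_pos (by positivity)
    have h11 := le_abs_self (Real.log 1802)
    have h12 := le_abs_self (Real.log H)
    linarith
  have h11 : (K : ℝ) * Real.log K + K * Real.log (3 * CC) + c * n ≤ ε * (n : ℝ) ^ 2 := by
    have h12 : Real.log K + Real.log (3 * CC) ≤ n / H + D := by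
      have := le_abs_self (Real.log (3 * CC))
      rw [hD]
      linarith
    have h13 : (K : ℝ) * (Real.log K + Real.log (3 * CC)) ≤ 1802 * n * (n / H + D) := by
      refine (mul_le_mul_of_nonneg_left h12 hK0.le).trans ?_
      exact mul_le_mul_of_nonneg_right hKn (by positivity)
    have h14 : 1802 * (n : ℝ) * (n / H) = ε / 2 * n ^ 2 := by
      rw [hH]
      field_simp
      ring
    have h15 : (1802 * D + c) * n ≤ ε / 2 * (n : ℝ) ^ 2 := by
      rw [div_le_iff₀ hε] at hnD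
      nlinarith
    nlinarith
  have h14 : (K : ℝ) = 1800 * n + κ := by
    rw [hK]
    push_cast
    ring
  rw [← h14]
  nlinarith

end Pool.Agent.Lib.PiMuB
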