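import Pool.Agent.Lib.PiMu.Nonvanish
import Pool.Agent.Lib.PiMu.LogLower
import Pool.Agent.Lib.PiMuB.Upper
import Pool.Agent.Lib.PiMuB.Nodes

/-!
# The irrationality exponent of `π` is at most `61/10`
-/

set_option autoImplicit false

namespace Pool.Agent.Lib.PiMuB

open Polynomial Pool.Agent.Lib.PiMu

private theorem log_five : Real.log 5 ≤ 1.6094397 := by
  have h2u := Real.log_two_lt_d9
  have hr : 28 * Real.log 5 = 65 * Real.log 2 + Real.log (5 ^ 28 / 2 ^ 65) := by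
    rw [Real.log_div (by positivity) (by positivity), Real.log_pow, Real.log_pow]
    push_cast
    ring
  have h1 : Real.log ((5 : ℝ) ^ 28 / 2 ^ 65) ≤ 5 ^ 28 / 2 ^ 65 - 1 :=
    Real.log_le_sub_one_of_pos (by positivity)
  have h3 : (5 : ℝ) ^ 28 / 2 ^ 65 - 1 ≤ 0.0097421 := by norm_num
  linarith

/-- The irrationality exponent of `π` is at most `61/10`. -/
theorem main : ∃ Q : ℕ, ∀ q : ℕ, Q ≤ q → ∀ p : ℤ,
    1 / (q : ℝ) ^ (61 / 10 : ℝ) ≤ |Real.pi - p / q| := by
  obtain ⟨n1, h1⟩ := log_det_lower (1 / 2) (by norm_num)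
  obtain ⟨n2, h2⟩ := log_det_upper2 chain_nodes 1 (by norm_num)
  refine ⟨⌈Real.exp (46364 * (4000 + n1 + n2))⌉₊, fun q hq p => ?_⟩
  by_contra hcon
  push Not at hcon
  have hq1 : Real.exp (46364 * (4000 + n1 + n2)) ≤ (q : ℝ) :=
    (Nat.le_ceil _).trans (by exact_mod_cast hq)
  have hq0 : (0 : ℝ) < q := lt_of_lt_of_le (Real.exp_pos _) hq1
  obtain ⟨L, hL⟩ : ∃ L, L = Real.log q := ⟨_, rfl⟩
  have hL1 : 46364 * (4000 + (n1 : ℝ) + n2) ≤ L := by
    rw [hL, Real.le_log_iff_exp_le hq0]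
    exact hq1
  have hn1 : (0 : ℝ) ≤ n1 := by positivity
  have hn2 : (0 : ℝ) ≤ n2 := by positivity
  have hl2u := Real.log_two_lt_d9
  have hl2l := Real.log_two_gt_d9
  have hl5 := log_five
  obtain ⟨lam, hlam⟩ : ∃ lam, lam = 66888 * Real.log 2 := ⟨_, rfl⟩
  have hlam0 : 0 < lam := by linarith
  have hlam1 : lam ≤ 46364 := by linarith
  have hlam2 : lam ≤ 46363.2287 := by linarith
  obtain ⟨m, hm⟩ : ∃ m, m = ⌊61 / 10 * L / lam⌋₊ := ⟨_, rfl⟩
  have hL0 : 0 ≤ L := le_trans (by positivity) hL1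
  have hmL : (m : ℝ) ≤ 61 / 10 * L / lam := hm ▸ Nat.floor_le (by positivity)
  have hmU : 61 / 10 * L / lam < m + 1 := hm ▸ Nat.lt_floor_add_one _
  rw [le_div_iff₀ hlam0] at hmL
  rw [div_lt_iff₀ hlam0] at hmU
  have hmr : 4000 + (n1 : ℝ) + n2 ≤ m := by
    have h3 : 4000 + (n1 : ℝ) + n2 < m + 1 := by
      by_contra hc
      rw [not_lt] at hc
      have h4 : ((m : ℝ) + 1) * lam ≤ (4000 + (n1 : ℝ) + n2) * 46364 :=
        mul_le_mul hc hlam1 hlam0.le (by positivity)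
      linarith
    have h4 : 4000 + n1 + n2 < m + 1 := by exact_mod_cast h3
    have h5 : 4000 + n1 + n2 ≤ m := by omega
    exact_mod_cast h5
  have hge1 : n1 ≤ 60 * m := by
    have : (n1 : ℝ) ≤ m := by linarith
    have : n1 ≤ m := by exact_mod_cast this
    omega
  have hge2 : n2 ≤ m := by
    have : (n2 : ℝ) ≤ m := by linarith
    exact_mod_cast this
  have hqz : ((q : ℤ)) ≠ 0 := by
    have : q ≠ 0 := by
      rintro rfl
      simp at hq0
    exact_mod_cast this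
  have hm1 : (4000 : ℝ) ≤ m := by linarith
  have hm1' : 1 ≤ 60 * m := by
    have : (1 : ℝ) ≤ m := by linarith
    have : 1 ≤ m := by exact_mod_cast this
    omega
  have e30 : 30 * (60 * m) = 1800 * m := by ring
  obtain ⟨κ, hκ, hdet⟩ := nonvanish (q : ℤ) p hqz (60 * m) (30 * (60 * m)) hm1'
  have hlow := h1 (60 * m) hge1 (q : ℤ) p κ hκ hdet
  rw [e30] at hdet hlow
  have hup := h2 m hge2 (q : ℤ) p (by
    have : 1 ≤ q := by
      rcases Nat.eq_zero_or_pos q with h | h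
      · subst h; simp at hq0
      · exact h
    exact_mod_cast this) κ hκ (by
      have e1 : |Real.pi - (p : ℝ) / ((q : ℤ) : ℝ)| < 1 / (q : ℝ) ^ (61 / 10 : ℝ) := by
        rw [Int.cast_natCast]
        exact hcon
      refine e1.le.trans ?_
      have e2 : (1 / 2 : ℝ) ^ (66888 * m) = Real.exp (-(m * lam)) := by
        rw [one_div, inv_pow, Real.exp_neg, hlam]
        congr 1
        rw [show (m : ℝ) * (66888 * Real.log 2) = ((66888 * m : ℕ) : ℝ) * Real.log 2 by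
          push_cast; ring, Real.exp_nat_mul, Real.exp_log (by norm_num)]
      rw [e2, Real.rpow_def_of_pos hq0, one_div, ← Real.exp_neg, Real.exp_le_exp, ← hL]
      linarith) hdet
  have hlogq : Real.log (((q : ℤ) : ℝ)) = L := by rw [Int.cast_natCast, hL]
  rw [hlogq, trap_nodeList] at hup
  have hκ' : (κ : ℝ) ≤ 2 := by exact_mod_cast hκ
  have hκ0 : (0 : ℝ) ≤ κ := by positivity
  push_cast at hlow hup
  have hLm : L ≤ 7600.53 * (m + 1) := by nlinarith
  have h3 : (1800 * m + κ) * L ≤ (1800 * m + 2) * (7600.53 * (m + 1)) :=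
    mul_le_mul (by linarith) hLm hL0 (by positivity)
  have h4 : (5145 - 2250 * Real.log 2 + 2025 / 2 * Real.log 5 + 1 / 2 : ℝ) ≤ 5215.48 := by
    linarith
  have h5 := mul_le_mul_of_nonneg_right h4 (sq_nonneg (60 * (m : ℝ)))
  have h6 : (32466420 : ℝ) ≤ Real.log 2 / 2 * 93678303 := by linarith
  have h7 := mul_le_mul_of_nonneg_right h6 (sq_nonneg (m : ℝ))
  nlinarith

end Pool.Agent.Lib.PiMuB
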