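import Pool.Agent.Lib.PiMuB.Data

/-!
# Polynomials of region 1
-/

set_option autoImplicit false

namespace Pool.Agent.Lib.PiMuB

/-- `s Re w` -/
def U1 : List ℤ := [0, 0, -1]

/-- `s^2 (Im w)^2` -/
def V1 : List ℤ := [0, 0, 0, 0, 0]

/-- `s |z|^2` -/
def Z1 : List ℤ := [0, 0, 1]

def ps1 : List (List ℤ) := [[0, 0, 1, 0, 0, 0, 0, 0, 0],
[625000000000000000000000000, 0, -300000000000000000000, 0, 86000000000000, 0, -12000000, 0, 1],
[6159331240000000000000000, 0, -15585704000000000000, 0, 14823200000000, 0, -6280000, 0, 1],
[8482073760000000000000000, 0, -19571328000000000000, 0, 17114400000000, 0, -6720000, 0, 1],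
[11185680250000000000000000, 0, -23679060000000000000, 0, 19220600000000, 0, -7080000, 0, 1],
[15161678440000000000000000, 0, -29125624000000000000, 0, 21775200000000, 0, -7480000, 0, 1],
[20732540890000000000000000, 0, -35880004000000000000, 0, 24630200000000, 0, -7880000, 0, 1],
[27706537690000000000000000, 0, -43372888000000000000, 0, 27501800000000, 0, -8240000, 0, 1],
[37343098810000000000000000, 0, -52553740000000000000, 0, 30711800000000, 0, -8600000, 0, 1],
[50923923210000000000000000, 0, -64224900000000000000, 0, 34522200000000, 0, -9000000, 0, 1],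
[66986040250000000000000000, 0, -76279540000000000000, 0, 38084600000000, 0, -9320000, 0, 1],
[87282306250000000000000000, 0, -90061700000000000000, 0, 41917400000000, 0, -9640000, 0, 1],
[108035236000000000000000000, 0, -103108480000000000000, 0, 45389600000000, 0, -9920000, 0, 1],
[128353038490000000000000000, 0, -114652516000000000000, 0, 48262200000000, 0, -10120000, 0, 1],
[147073830760000000000000000, 0, -124669672000000000000, 0, 50674400000000, 0, -10280000, 0, 1],
[168026406250000000000000000, 0, -135328500000000000000, 0, 53173400000000, 0, -10440000, 0, 1],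
[1562500000000, 0, -2500000, 0, 1, 0, 0, 0, 0],
[1081600000000, 0, -2080000, 0, 1, 0, 0, 0, 0],
[739600000000, 0, -1720000, 0, 1, 0, 0, 0, 0],
[4790024100000000, 0, 138420000, 0, 1, 0, 0, 0, 0]]

def cs1 : List ℕ := [1000000, 1000000000000000000000000, 1000000000000000000000000,
  1000000000000000000000000, 1000000000000000000000000, 1000000000000000000000000,
  1000000000000000000000000, 1000000000000000000000000, 1000000000000000000000000,
  1000000000000000000000000, 1000000000000000000000000, 1000000000000000000000000,
  1000000000000000000000000, 1000000000000000000000000, 1000000000000000000000000,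
  1000000000000000000000000, 1000000000000, 1000000000000, 1000000000000, 1000000000000]

def D1 : List ℤ := [625000000000000, 0, 50000000, 0, 1]

theorem ps1_eq : mkPs 10000 U1 V1 Z1 atoms = ps1 := by decide +kernel

theorem cs1_eq : mkCs 1000000 atoms = cs1 := by decide +kernel

theorem D1_eq : realP 10000 U1 V1 2500 = D1 := by decide +kernel

end Pool.Agent.Lib.PiMuB
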