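import Pool.Agent.Lib.PiMuB.Data

/-!
# Polynomials of region C
-/

set_option autoImplicit false

namespace Pool.Agent.Lib.PiMuB

/-- `s Re w` -/
def UC : List ℤ := [255000, -1000, 1]

/-- `s^2 (Im w)^2` -/
def VC : List ℤ := [0, 0, -510000, 2000, -1]

/-- `s |z|^2` -/
def ZC : List ℤ := [-255000, 1000]

def psC : List (List ℤ) := [[-255000, 1000, 0, 0, 0, 0, 0, 0, 0],
[11156640625000000000000, -133087500000000000000, 646556000000000000, -1462400000000000,
    1280000000000, 0, 0, 0, 0],
[6729203086158400000000, -93975538432000000000, 502480254432000000, -1217597760000000,
    1129570880000, 0, 0, 0, 0],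
[6943215609921600000000, -96191488224000000000, 511084209024000000, -1232263680000000,
    1139059840000, 0, 0, 0, 0],
[7126196122240000000000, -98058554880000000000, 518288324480000000, -1244518400000000,
    1146951200000, 0, 0, 0, 0],
[7337039418510400000000, -100183865792000000000, 526442165792000000, -1258356160000000,
    1155830080000, 0, 0, 0, 0],
[7558619241702400000000, -102380920832000000000, 534816552832000000, -1272546560000000,
    1164885280000, 0, 0, 0, 0],
[7769096780550400000000, -104431210304000000000, 542581002304000000, -1285691840000000,
    1173221920000, 0, 0, 0, 0],
[7992245568409600000000, -106564037120000000000, 550605944320000000, -1299274880000000,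
    1181777440000, 0, 0, 0, 0],
[8249987170713600000000, -108995328000000000000, 559700236800000000, -1314635520000000,
    1191417760000, 0, 0, 0, 0],
[8475927399040000000000, -111066974720000000000, 567389288320000000, -1327654400000000,
    1199495200000, 0, 0, 0, 0],
[8713102336000000000000, -113207603200000000000, 575289753600000000, -1341024000000000,
    1207748000000, 0, 0, 0, 0],
[8926205857960000000000, -115112726240000000000, 582289171840000000, -1352844800000000,
    1215030400000, 0, 0, 0, 0],
[9094048365798400000000, -116571388928000000000, 587613868928000000, -1361877760000000,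
    1220526880000, 0, 0, 0, 0],
[9233280412801600000000, -117767854976000000000, 591966215776000000, -1369263680000000,
    1225003840000, 0, 0, 0, 0],
[9376436224000000000000, -118987161600000000000, 596388608000000000, -1376768000000000,
    1229540000000, 0, 0, 0, 0],
[78400000000, -560000000, 1050000, 0, 0, 0, 0, 0, 0],
[76065640000, -551600000, 1041600, 0, 0, 0, 0, 0, 0],
[74092840000, -544400000, 1034400, 0, 0, 0, 0, 0, 0],
[1275092640000, 2258400000, -1768400, 0, 0, 0, 0, 0, 0]]

def csC : List ℕ := [20000, 160000000000000000, 160000000000000000, 160000000000000000,
  160000000000000000, 160000000000000000, 160000000000000000, 160000000000000000,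
  160000000000000000, 160000000000000000, 160000000000000000, 160000000000000000,
  160000000000000000, 160000000000000000, 160000000000000000, 160000000000000000, 400000000,
  400000000, 400000000, 400000000]

def DC : List ℤ := [60025000000, 490000000, 0, 0, 0]

theorem psC_eq : mkPs 200 UC VC ZC atoms = psC := by decide +kernel

theorem csC_eq : mkCs 20000 atoms = csC := by decide +kernel

theorem DC_eq : realP 200 UC VC 2500 = DC := by decide +kernel

end Pool.Agent.Lib.PiMuB
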